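import Mathlib

set_option autoImplicit false

/-!
Definitions and statements of the parts of the proof that the expected spectral measure of a
unimodular Galton-Watson tree has finitely many atoms.
-/

namespace Pool.Agent.W909.UG

open MeasureTheory ProbabilityTheory Filter Topology

/-- Trees are coded by numbers of children: the children of the vertex `w` are `w ++ [a]`,
`a < N w`. -/
abbrev Tr := List ℕ → ℕ

/-- The subtree at the child `a` of the root. -/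
def sub (N : Tr) (a : ℕ) : Tr := fun w => N (a :: w)

/-- At most `D` children at each vertex. -/
def Bdd (D : ℕ) (N : Tr) : Prop := ∀ w, N w ≤ D

/-- Truncation of the numbers of children. -/
def cut (D : ℕ) (N : Tr) : Tr := fun w => min (N w) D

/-- Closed walks of length `k` at the root. -/
def walks (N : Tr) (k : ℕ) : Set (Fin (k + 1) → List ℕ) :=
  {f | f 0 = [] ∧ f (Fin.last k) = [] ∧
    (∀ i, ∀ j < (f i).length, (f i).getD j 0 < N ((f i).take j)) ∧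
    ∀ i : Fin k, (∃ a : ℕ, f i.succ = f i.castSucc ++ [a]) ∨
      (∃ a : ℕ, f i.castSucc = f i.succ ++ [a])}

/-- Stieltjes transform. -/
noncomputable def st (μ : Measure ℝ) (z : ℂ) : ℂ := ∫ x : ℝ, (z - (x : ℂ))⁻¹ ∂μ

/-- The integral of `(x - l)^(-2)`, infinite if `l` is an atom. -/
noncomputable def sg (μ : Measure ℝ) (l : ℝ) : ENNReal :=
  ∫⁻ x : ℝ, (ENNReal.ofReal ((x - l) ^ 2))⁻¹ ∂μ

/-- The integral of `1 / (l - x)`. -/
noncomputable def rr (μ : Measure ℝ) (l : ℝ) : ℝ := ∫ x : ℝ, (l - x)⁻¹ ∂μ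

/-- A family of probability measures attached to the trees with at most `D` children at each
vertex: supports, moments and the recursion of the Stieltjes transforms. -/
structure IsSpec (D : ℕ) (μ : Tr → Measure ℝ) : Prop where
  prob : ∀ N, Bdd D N → IsProbabilityMeasure (μ N)
  supp : ∀ N, Bdd D N → μ N (Set.Icc (-(2 * (D : ℝ) + 2)) (2 * (D : ℝ) + 2))ᶜ = 0
  mom : ∀ N, Bdd D N → ∀ k : ℕ, ∫ x : ℝ, x ^ k ∂(μ N) = ((walks N k).ncard : ℝ)
  recu : ∀ N, Bdd D N → ∀ z : ℂ, 0 < z.im →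
    st (μ N) z * (z - ∑ a ∈ Finset.range (N []), st (μ (sub N a)) z) = 1

/-! ### Operators -/

/-- Square summable functions on all words. -/
noncomputable abbrev H2 := lp (fun _ : List ℕ => ℂ) 2

/-- The vector of the root. -/
noncomputable def dl : H2 := lp.single 2 ([] : List ℕ) (1 : ℂ)

/-- Membership in the tree. -/
def inT (N : Tr) (v : List ℕ) : Prop := ∀ j < v.length, v.getD j 0 < N (v.take j)

open Classical in
/-- `A` is the adjacency operator of the tree coded by `N` (zero outside the tree). -/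
def IsAdj (N : Tr) (A : H2 →L[ℂ] H2) : Prop :=
  ∀ (f : H2) (v : List ℕ), (A f : List ℕ → ℂ) v =
    if inT N v then (if v = [] then 0 else f v.dropLast) + ∑ a ∈ Finset.range (N v), f (v ++ [a])
    else 0

/-- UG-A1: the adjacency operator exists, is bounded and self-adjoint. -/
def TaskA1 : Prop := ∀ (D : ℕ) (N : Tr), Bdd D N →
  ∃ A : H2 →L[ℂ] H2, IsSelfAdjoint A ∧ IsAdj N A ∧ ‖A‖ ≤ 2 * (D : ℝ) + 2

/-- UG-A2: its powers count closed walks. -/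
def TaskA2 : Prop := ∀ (D : ℕ) (N : Tr), Bdd D N → ∀ A : H2 →L[ℂ] H2, IsAdj N A →
  ∀ k : ℕ, inner ℂ dl ((A ^ k) dl) = (((walks N k).ncard : ℕ) : ℂ)

/-- UG-A3: gluing of the resolvent vectors of the subtrees at the children of the root. -/
def TaskA3 : Prop := ∀ (D : ℕ) (N : Tr), Bdd D N → ∀ A : H2 →L[ℂ] H2, IsAdj N A →
  ∀ B : ℕ → (H2 →L[ℂ] H2), (∀ a < N [], IsAdj (sub N a) (B a)) →
  ∀ z : ℂ, 0 < z.im → ∀ φ : ℕ → H2, (∀ a < N [], z • φ a - B a (φ a) = dl) →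
  ∃ ψ : H2, (ψ : List ℕ → ℂ) [] = 1 ∧
    z • ψ - A ψ = (z - ∑ a ∈ Finset.range (N []), (φ a : List ℕ → ℂ) []) • dl

/-- UG-A4: spectral measure of a unit vector, with its Stieltjes transform. -/
def TaskA4 : Prop := ∀ (X : Type) [NormedAddCommGroup X] [InnerProductSpace ℂ X] [CompleteSpace X]
  (H : X →L[ℂ] X), IsSelfAdjoint H → ∀ φ : X, ‖φ‖ = 1 →
  (∀ z : ℂ, 0 < z.im → ∃ ψ : X, z • ψ - H ψ = φ) ∧
  ∃ μ : Measure ℝ, IsProbabilityMeasure μ ∧ μ (Set.Icc (-‖H‖) ‖H‖)ᶜ = 0 ∧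
    (∀ k : ℕ, ((∫ x : ℝ, x ^ k ∂μ : ℝ) : ℂ) = inner ℂ φ ((H ^ k) φ)) ∧
    (∀ z : ℂ, 0 < z.im → ∀ ψ : X, z • ψ - H ψ = φ → st μ z = inner ℂ φ ψ)

/-! ### Behaviour near a point of the real axis -/

/-- UG-B1: boundary behaviour of one Stieltjes transform at `l + i t`, `t → 0+`. -/
def TaskB1 : Prop := ∀ (μ : Measure ℝ), IsProbabilityMeasure μ → ∀ l : ℝ,
  Tendsto (fun t : ℝ => (t : ℂ) * Complex.I * st μ ((l : ℂ) + (t : ℂ) * Complex.I)) (𝓝[>] 0)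
    (𝓝 ((μ.real {l} : ℝ) : ℂ)) ∧
  (sg μ l ≠ ⊤ → μ {l} = 0 ∧ 0 < (sg μ l).toReal ∧
    Tendsto (fun t : ℝ => st μ ((l : ℂ) + (t : ℂ) * Complex.I)) (𝓝[>] 0) (𝓝 ((rr μ l : ℝ) : ℂ)) ∧
    Tendsto (fun t : ℝ => (st μ ((l : ℂ) + (t : ℂ) * Complex.I) - ((rr μ l : ℝ) : ℂ)) / (t : ℂ))
      (𝓝[>] 0) (𝓝 (-(((sg μ l).toReal : ℝ) : ℂ) * Complex.I))) ∧
  (sg μ l = ⊤ →
    Tendsto (fun t : ℝ => -(st μ ((l : ℂ) + (t : ℂ) * Complex.I)).im / t) (𝓝[>] 0) atTop) ∧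
  (sg μ l = ⊤ → μ {l} = 0 →
    Tendsto (fun t : ℝ => ‖st μ ((l : ℂ) + (t : ℂ) * Complex.I)‖ ^ 2 * t /
      (-(st μ ((l : ℂ) + (t : ℂ) * Complex.I)).im)) (𝓝[>] 0) (𝓝 0))

/-- The four cases of the recursion at the point `l`. -/
def Cases (l : ℝ) (μ : Measure ℝ) (k : ℕ) (ν : ℕ → Measure ℝ) : Prop :=
  ((∃ a < k, ν a {l} ≠ 0) → sg μ l ≠ ⊤ ∧ rr μ l = 0 ∧
    (sg μ l).toReal * ∑ a ∈ Finset.range k, (ν a).real {l} = 1) ∧
  ((∀ a < k, sg (ν a) l ≠ ⊤) → ∑ a ∈ Finset.range k, rr (ν a) l = l →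
    μ.real {l} * (1 + ∑ a ∈ Finset.range k, (sg (ν a) l).toReal) = 1) ∧
  ((∀ a < k, sg (ν a) l ≠ ⊤) → ∑ a ∈ Finset.range k, rr (ν a) l ≠ l →
    sg μ l ≠ ⊤ ∧ rr μ l * (l - ∑ a ∈ Finset.range k, rr (ν a) l) = 1 ∧
    (sg μ l).toReal = (rr μ l) ^ 2 * (1 + ∑ a ∈ Finset.range k, (sg (ν a) l).toReal)) ∧
  ((∀ a < k, ν a {l} = 0) → (∃ a < k, sg (ν a) l = ⊤) → μ {l} = 0 ∧ sg μ l = ⊤)

/-- UG-B2: the four cases (assuming `TaskB1`). -/
def TaskB2 : Prop := TaskB1 → ∀ (l : ℝ) (μ : Measure ℝ) (k : ℕ) (ν : ℕ → Measure ℝ),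
  IsProbabilityMeasure μ → (∀ a < k, IsProbabilityMeasure (ν a)) →
  (∀ z : ℂ, 0 < z.im → st μ z * (z - ∑ a ∈ Finset.range k, st (ν a) z) = 1) →
  Cases l μ k ν

/-! ### Measurability and the link with the given measure -/

/-- UG-M: measurable dependence on the tree. -/
def TaskM : Prop := ∀ (D : ℕ) (μ : Tr → Measure ℝ), IsSpec D μ →
  Measurable (fun N : Tr => μ (cut D N))

/-- UG-C: a compactly supported measure with the expected moments is the expected measure. -/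
def TaskC : Prop := ∀ (D : ℕ) (μ : Tr → Measure ℝ), IsSpec D μ →
  Measurable (fun N : Tr => μ (cut D N)) →
  ∀ (U : Measure Tr), IsProbabilityMeasure U → (∀ᵐ N ∂U, Bdd D N) →
  ∀ (ν : Measure ℝ), IsProbabilityMeasure ν → (∃ R : ℝ, ν (Set.Icc (-R) R)ᶜ = 0) →
  (∀ k : ℕ, ∫ x : ℝ, x ^ k ∂ν = ∫ N, ((walks N k).ncard : ℝ) ∂U) →
  ∀ l : ℝ, ν {l} = ∫⁻ N, μ (cut D N) {l} ∂U

/-! ### The types of the trees at a point -/

/-- The data of the trees at the point `l`: mass `m` of the atom, finiteness `fi` of the integral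
`s` of `(x - l)^(-2)`, and the integral `r` of `1 / (l - x)`. -/
structure Typed (D : ℕ) (l : ℝ) where
  m : Tr → ℝ
  fi : Tr → Prop
  r : Tr → ℝ
  s : Tr → ℝ
  hm : ∀ N, Bdd D N → 0 ≤ m N ∧ m N ≤ 1
  hfi : ∀ N, Bdd D N → fi N → m N = 0 ∧ 0 < s N
  h1 : ∀ N, Bdd D N → (∃ a < N [], 0 < m (sub N a)) → fi N ∧ r N = 0 ∧
    s N * ∑ a ∈ Finset.range (N []), m (sub N a) = 1
  h2 : ∀ N, Bdd D N → (∀ a < N [], fi (sub N a)) →
    ∑ a ∈ Finset.range (N []), r (sub N a) = l →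
    m N * (1 + ∑ a ∈ Finset.range (N []), s (sub N a)) = 1
  h3 : ∀ N, Bdd D N → (∀ a < N [], fi (sub N a)) →
    ∑ a ∈ Finset.range (N []), r (sub N a) ≠ l →
    fi N ∧ r N * (l - ∑ a ∈ Finset.range (N []), r (sub N a)) = 1 ∧
    s N = (r N) ^ 2 * (1 + ∑ a ∈ Finset.range (N []), s (sub N a))
  h4 : ∀ N, Bdd D N → (∀ a < N [], m (sub N a) = 0) → (∃ a < N [], ¬ fi (sub N a)) →
    m N = 0 ∧ ¬ fi N

/-- A good tree: finite type with non-zero value. -/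
def Typed.gd {D : ℕ} {l : ℝ} (T : Typed D l) (N : Tr) : Prop := T.fi N ∧ T.r N ≠ 0

open Classical in
/-- Truncated height of the component of good vertices below the root. -/
noncomputable def Typed.ht {D : ℕ} {l : ℝ} (T : Typed D l) : ℕ → Tr → ℕ
  | 0, _ => 0
  | n + 1, N => 1 + (Finset.range (N [])).sup
      (fun a => if T.gd (sub N a) then T.ht n (sub N a) else 0)

/-- UG-F: outside a finite set of points all components are high. -/
def TaskF : Prop := ∀ D L : ℕ, ∃ E : Set ℝ, E.Finite ∧ ∀ l : ℝ, l ∉ E → ∀ T : Typed D l,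
  ∀ N, Bdd D N → 0 < T.m N → ∃ a < N [], T.gd (sub N a) ∧ T.ht L (sub N a) = L

end Pool.Agent.W909.UG
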