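import Mathlib
import Pool.Agent.W909.UG.Defs

set_option autoImplicit false

/-!
The Galton-Watson measures on coded trees, independence of subtrees, mass transport over edges.
-/

namespace Pool.Agent.W909.UG

open MeasureTheory ProbabilityTheory Filter Topology

section

variable (p q : Measure ℕ) [IsProbabilityMeasure p] [IsProbabilityMeasure q]

/-- offspring law at a word -/
noncomputable def law (w : List ℕ) : Measure ℕ := if w = [] then p else q

instance (w : List ℕ) : IsProbabilityMeasure (law p q w) := by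
  unfold law; split_ifs <;> infer_instance

/-- Galton-Watson tree with root law `p` and offspring law `q`. -/
noncomputable def GW : Measure Tr := Measure.infinitePi (law p q)

instance : IsProbabilityMeasure (GW p q) := by unfold GW; infer_instance

/-- replace the number of children of the root -/
def setroot (k : ℕ) (N : Tr) : Tr := fun w => if w = [] then k else N w

/-- replace the subtree at `a` -/
def setsub (a : ℕ) (N y : Tr) : Tr := fun w => match w with
  | [] => N []
  | b :: v => if b = a then y v else N (b :: v)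

lemma meas_setroot : Measurable (fun x : ℕ × Tr => setroot x.1 x.2) := by
  refine measurable_pi_iff.2 fun w => ?_
  unfold setroot
  split_ifs <;> fun_prop

lemma meas_setsub (a : ℕ) : Measurable (fun x : Tr × Tr => setsub a x.1 x.2) := by
  refine measurable_pi_iff.2 fun w => ?_
  unfold setsub
  rcases w with _ | ⟨b, v⟩
  · simp only; fun_prop
  · simp only; split_ifs <;> fun_prop

lemma meas_sub (a : ℕ) : Measurable (fun N : Tr => sub N a) := by
  unfold sub; fun_prop

lemma GW_setroot : ((p.prod (GW q q)).map (fun x => setroot x.1 x.2)) = GW p q := by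
  classical
  refine Measure.eq_infinitePi _ fun s t ht => ?_
  rw [Measure.map_apply meas_setroot (.pi s.countable_toSet fun _ _ => ht _)]
  have h1 : (fun x : ℕ × Tr => setroot x.1 x.2) ⁻¹' ((s : Set (List ℕ)).pi t) =
      (if [] ∈ s then t [] else Set.univ) ×ˢ (((s.erase [] : Finset (List ℕ)) : Set (List ℕ)).pi t) := by
    ext ⟨k, N⟩
    simp only [Set.mem_preimage, Set.mem_pi, Finset.mem_coe, Set.mem_prod, Finset.mem_erase, ne_eq,
      and_imp, setroot]
    constructor
    · intro h
      refine ⟨?_, fun w hw hs => by simpa [hw] using h w hs⟩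
      split_ifs with h0
      · simpa using h [] h0
      · trivial
    · rintro ⟨h2, h3⟩ w hw
      by_cases h0 : w = []
      · subst h0; simpa [hw] using h2
      · simpa [h0] using h3 w h0 hw
  rw [h1, Measure.prod_prod, GW, Measure.infinitePi_pi _ (fun _ _ => ht _)]
  have h2 : ∏ i ∈ s.erase [], (law q q i) (t i) = ∏ i ∈ s.erase [], (law p q i) (t i) := by
    refine Finset.prod_congr rfl fun i hi => ?_
    have := Finset.ne_of_mem_erase hi
    simp [law, this]
  rw [h2]
  by_cases h0 : [] ∈ s
  · rw [if_pos h0, ← Finset.mul_prod_erase s _ h0]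
    simp [law]
  · rw [if_neg h0, Finset.erase_eq_of_notMem h0]
    simp

lemma GW_setsub (a : ℕ) :
    (((GW p q).prod (GW q q)).map (fun x => setsub a x.1 x.2)) = GW p q := by
  classical
  refine Measure.eq_infinitePi _ fun s t ht => ?_
  rw [Measure.map_apply (meas_setsub a) (.pi s.countable_toSet fun _ _ => ht _)]
  set s1 : Finset (List ℕ) := s.filter (fun w => ¬ ∃ v, w = a :: v) with hs1
  have hinj : Function.Injective (fun v : List ℕ => a :: v) := by intro x y h; simpa using h
  obtain ⟨s2, hs2⟩ : ∃ s2 : Finset (List ℕ), s2 = s.preimage (fun v => a :: v) hinj.injOn :=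
    ⟨_, rfl⟩
  have hm2 : ∀ v, v ∈ s2 ↔ a :: v ∈ s := by intro v; rw [hs2, Finset.mem_preimage]
  have h1 : (fun x : Tr × Tr => setsub a x.1 x.2) ⁻¹' ((s : Set (List ℕ)).pi t) =
      ((s1 : Set (List ℕ)).pi t) ×ˢ ((s2 : Set (List ℕ)).pi (fun v => t (a :: v))) := by
    ext ⟨N, y⟩
    simp only [Set.mem_preimage, Set.mem_pi, Finset.mem_coe, Set.mem_prod, hs1, hm2,
      Finset.mem_filter]
    constructor
    · intro h
      constructor
      · rintro w ⟨hw, hn⟩
        have := h w hw
        rcases w with _ | ⟨b, v⟩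
        · exact this
        · have hb : b ≠ a := by rintro rfl; exact hn ⟨v, rfl⟩
          simpa [setsub, hb] using this
      · intro v hv
        simpa [setsub] using h _ hv
    · rintro ⟨h2, h3⟩ w hw
      rcases w with _ | ⟨b, v⟩
      · exact h2 [] ⟨hw, by simp⟩
      · by_cases hb : b = a
        · subst hb; simpa [setsub] using h3 v hw
        · simpa [setsub, hb] using h2 (b :: v) ⟨hw, by rintro ⟨v', hv'⟩; simp at hv'; exact hb hv'.1⟩
  rw [h1, Measure.prod_prod, GW, GW, Measure.infinitePi_pi _ (fun _ _ => ht _),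
    Measure.infinitePi_pi _ (fun _ _ => ht _)]
  rw [← Finset.prod_filter_mul_prod_filter_not s (fun w => ¬ ∃ v, w = a :: v)]
  congr 1
  have h3 : ∏ i ∈ s2, (law q q i) (t (a :: i)) = ∏ i ∈ s2, (law p q (a :: i)) (t (a :: i)) := by
    refine Finset.prod_congr rfl fun i _ => ?_
    simp [law]
  rw [h3, hs2, Finset.prod_preimage' (fun v => a :: v) s hinj.injOn
    (fun w => (law p q w) (t w))]
  refine Finset.prod_congr ?_ fun _ _ => rfl
  ext w
  simp only [Finset.mem_filter, Set.mem_range, not_not]
  constructor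
  · rintro ⟨h, v, rfl⟩; exact ⟨h, v, rfl⟩
  · rintro ⟨h, v, rfl⟩; exact ⟨h, v, rfl⟩

lemma GW_sub (a : ℕ) : (GW p q).map (fun N => sub N a) = GW q q := by
  have h := Measure.map_infinitePi_infinitePi_of_inj (P := law p q) (f := fun v : List ℕ => a :: v)
    (by intro x y h; simpa using h)
  unfold GW
  rw [show (fun N : Tr => sub N a) = (fun ω i => ω (a :: i)) from rfl, h]
  congr 1
  funext w
  simp [law]

/-- skip the letter `a` -/
def sk (a b : ℕ) : ℕ := if b < a then b else b + 1

lemma sk_ne (a b : ℕ) : sk a b ≠ a := by unfold sk; split_ifs <;> omega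

lemma sk_inj (a : ℕ) : Function.Injective (sk a) := by
  intro x y h
  unfold sk at h
  split_ifs at h <;> omega

/-- skip `a` in the first letter -/
def skw (a : ℕ) (w : List ℕ) : List ℕ := match w with
  | [] => []
  | b :: v => sk a b :: v

lemma skw_inj (a : ℕ) : Function.Injective (skw a) := by
  intro x y h
  rcases x with _ | ⟨b, v⟩ <;> rcases y with _ | ⟨c, u⟩
  · rfl
  · simp [skw] at h
  · simp [skw] at h
  · simp only [skw, List.cons.injEq] at h
    rw [sk_inj a h.1, h.2]

lemma GW_skip (a : ℕ) : (GW p q).map (fun N w => N (skw a w)) = GW p q := by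
  have h := Measure.map_infinitePi_infinitePi_of_inj (P := law p q) (f := skw a) (skw_inj a)
  unfold GW
  rw [h]
  congr 1
  funext w
  rcases w with _ | ⟨b, v⟩
  · rfl
  · simp [law, skw]

/-- remove the child `a` of the root -/
def del (N : Tr) (a : ℕ) : Tr := fun w => match w with
  | [] => N [] - 1
  | b :: v => N (sk a b :: v)

/-- remove one from the number of children of the root -/
def dec (N : Tr) : Tr := fun w => match w with
  | [] => N [] - 1
  | b :: v => N (b :: v)

lemma meas_dec : Measurable dec := by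
  refine measurable_pi_iff.2 fun w => ?_
  unfold dec
  rcases w with _ | ⟨b, v⟩
  · simp only
    exact (measurable_from_top (f := fun n : ℕ => n - 1)).comp (measurable_pi_apply _)
  · simp only; fun_prop

lemma meas_del (a : ℕ) : Measurable (fun N => del N a) := by
  refine measurable_pi_iff.2 fun w => ?_
  unfold del
  rcases w with _ | ⟨b, v⟩
  · simp only
    exact (measurable_from_top (f := fun n : ℕ => n - 1)).comp (measurable_pi_apply _)
  · simp only; fun_prop

lemma del_eq (N : Tr) (a : ℕ) : del N a = dec (fun w => N (skw a w)) := by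
  funext w
  rcases w with _ | ⟨b, v⟩ <;> rfl

lemma del_setsub (a : ℕ) (N y : Tr) : del (setsub a N y) a = del N a := by
  funext w
  rcases w with _ | ⟨b, v⟩
  · rfl
  · simp [del, setsub, sk_ne]

lemma sub_setsub (a : ℕ) (N y : Tr) : sub (setsub a N y) a = y := by
  funext w
  simp [sub, setsub]

lemma sub_setsub_ne {a b : ℕ} (h : b ≠ a) (N y : Tr) : sub (setsub a N y) b = sub N b := by
  funext w
  simp [sub, setsub, h]

@[simp] lemma setsub_root (a : ℕ) (N y : Tr) : setsub a N y [] = N [] := rfl

@[simp] lemma setroot_root (k : ℕ) (N : Tr) : setroot k N [] = k := by simp [setroot]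

lemma dec_setroot (k : ℕ) (N : Tr) : dec (setroot k N) = setroot (k - 1) N := by
  funext w
  rcases w with _ | ⟨b, v⟩
  · simp [dec, setroot]
  · simp [dec, setroot]

/-- independence of the subtree at `a` from the rest -/
lemma integral_setsub (a : ℕ) (G : Tr → Tr → ℝ) (hG : Measurable (Function.uncurry G)) (C : ℝ)
    (hC : ∀ x y, |G x y| ≤ C) (h0 : ∀ N y, G (setsub a N y) y = G N y) :
    ∫ N, G N (sub N a) ∂(GW p q) = ∫ N, ∫ y, G N y ∂(GW q q) ∂(GW p q) := by
  have hm : Measurable (fun N : Tr => G N (sub N a)) :=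
    hG.comp (measurable_id.prodMk (meas_sub a))
  conv_lhs => rw [← GW_setsub p q a]
  rw [integral_map (meas_setsub a).aemeasurable hm.aestronglyMeasurable]
  have h1 : (fun x : Tr × Tr => G (setsub a x.1 x.2) (sub (setsub a x.1 x.2) a)) =
      fun x : Tr × Tr => G x.1 x.2 := by
    funext x
    rw [sub_setsub, h0]
  rw [h1, integral_prod]
  exact (integrable_const C).mono' hG.aestronglyMeasurable (ae_of_all _ fun x => by
    rw [Real.norm_eq_abs]; exact hC x.1 x.2)

end

/-- hypotheses on the offspring laws -/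
structure Laws (D : ℕ) (p q : Measure ℕ) (mb : ℝ) : Prop where
  hp : ∀ k, D < k → p {k} = 0
  h0 : p {0} = 0
  h1 : p {1} = 0
  hmb : 0 < mb
  hq : ∀ k : ℕ, ((k : ℝ) + 1) * p.real {k + 1} = mb * q.real {k}

section

variable {D : ℕ} {p q : Measure ℕ} [IsProbabilityMeasure p] [IsProbabilityMeasure q] {mb : ℝ}

lemma Laws.q_zero (h : Laws D p q mb) {k : ℕ} (hk : D ≤ k) : q {k} = 0 := by
  have h1 := h.hq k
  have h2 : p.real {k + 1} = 0 := by simp [Measure.real, h.hp (k + 1) (by omega)]
  rw [h2, mul_zero] at h1
  have h3 : q.real {k} = 0 := by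
    rcases mul_eq_zero.1 h1.symm with h3 | h3
    · exact absurd h3 h.hmb.ne'
    · exact h3
  exact (measureReal_eq_zero_iff).1 h3

lemma Laws.law_ae (h : Laws D p q mb) (w : List ℕ) : ∀ᵐ k ∂(law p q w), k ≤ D := by
  rw [ae_iff]
  have h1 : {k : ℕ | ¬ k ≤ D} = ⋃ k ∈ Set.Ioi D, {k} := by ext x; simp
  rw [h1]
  refine (measure_biUnion_null_iff (Set.to_countable _)).2 fun k hk => ?_
  have hk' : D < k := hk
  unfold law
  split_ifs
  · exact h.hp k hk'
  · exact h.q_zero hk'.le

lemma Laws.bdd (h : Laws D p q mb) : ∀ᵐ N ∂(GW p q), Bdd D N := by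
  unfold Bdd
  rw [ae_all_iff]
  intro w
  have h1 := h.law_ae w
  have h2 : (GW p q).map (fun N : Tr => N w) = law p q w := Measure.infinitePi_map_eval _ w
  rw [← h2] at h1
  exact ae_of_ae_map (measurable_pi_apply w).aemeasurable h1

lemma Laws.two_le (h : Laws D p q mb) : ∀ᵐ N ∂(GW p q), 2 ≤ N [] := by
  have h2 : (GW p q).map (fun N : Tr => N []) = p := by
    have := Measure.infinitePi_map_eval (law p q) []
    rw [GW, this]; rfl
  have h1 : ∀ᵐ k ∂p, 2 ≤ k := by
    rw [ae_iff]
    have h3 : {k : ℕ | ¬ 2 ≤ k} = {0} ∪ {1} := by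
      ext x; simp; omega
    rw [h3]
    exact measure_union_null h.h0 h.h1
  rw [← h2] at h1
  exact ae_of_ae_map (measurable_pi_apply _).aemeasurable h1

lemma Bdd.sub {N : Tr} (h : Bdd D N) (a : ℕ) : Bdd D (sub N a) := fun w => h _

lemma Bdd.del {N : Tr} (h : Bdd D N) (a : ℕ) : Bdd D (del N a) := by
  intro w
  rcases w with _ | ⟨b, v⟩
  · exact (Nat.sub_le _ _).trans (h [])
  · exact h _

omit [IsProbabilityMeasure q] in
lemma integral_nat (f : ℕ → ℝ) (C : ℝ) (hC : ∀ k, |f k| ≤ C) :
    ∫ k, f k ∂p = ∑' k, p.real {k} * f k := by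
  rw [integral_countable]
  · simp
  · exact (integrable_const C).mono' (measurable_of_countable f).aestronglyMeasurable
      (ae_of_all _ fun x => by rw [Real.norm_eq_abs]; exact hC x)

lemma integrable_of_bdd {α : Type*} [MeasurableSpace α] {μ : Measure α} [IsFiniteMeasure μ]
    {f : α → ℝ} (hf : Measurable f) (C : ℝ) (hC : ∀ x, |f x| ≤ C) : Integrable f μ :=
  (integrable_const C).mono' hf.aestronglyMeasurable (ae_of_all _ fun x => by
    rw [Real.norm_eq_abs]; exact hC x)

/-- integration by the number of children of the root -/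
lemma integral_root (g : ℕ → Tr → ℝ) (hg : ∀ k, Measurable (g k)) (C : ℝ)
    (hC : ∀ k x, |g k x| ≤ C) (h0 : ∀ j k N, g j (setroot k N) = g j N) :
    ∫ N, g (N []) N ∂(GW p q) = ∫ k, ∫ N, g k N ∂(GW q q) ∂p := by
  have hm0 : Measurable (fun x : ℕ × Tr => g x.1 x.2) :=
    measurable_from_prod_countable_right hg
  have hm : Measurable (fun N : Tr => g (N []) N) := by
    have h1 : Measurable (fun N : Tr => (N [], N)) := (measurable_pi_apply _).prodMk measurable_id
    exact hm0.comp h1
  conv_lhs => rw [← GW_setroot p q]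
  rw [integral_map meas_setroot.aemeasurable hm.aestronglyMeasurable]
  have h1 : (fun x : ℕ × Tr => g (setroot x.1 x.2 []) (setroot x.1 x.2)) =
      fun x : ℕ × Tr => g x.1 x.2 := by
    funext x
    rw [setroot_root, h0]
  rw [h1, integral_prod]
  exact integrable_of_bdd hm0 C fun x => hC x.1 x.2

/-- mass transport over the edges at the root -/
theorem mtp (h : Laws D p q mb) (F : Tr → Tr → ℝ) (hF : Measurable (Function.uncurry F)) (C : ℝ)
    (hC : ∀ x y, |F x y| ≤ C) :
    ∫ N, ∑ a ∈ Finset.range (N []), F (del N a) (sub N a) ∂(GW p q) =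
      mb * ∫ x, ∫ y, F x y ∂(GW q q) ∂(GW q q) := by
  have hC0 : 0 ≤ C := (abs_nonneg _).trans (hC 0 0)
  -- the averaged function
  obtain ⟨f, hf⟩ : ∃ f : Tr → ℝ, f = fun x => ∫ y, F x y ∂(GW q q) := ⟨_, rfl⟩
  have hfm : Measurable f := by
    rw [hf]
    exact (hF.stronglyMeasurable.integral_prod_right').measurable
  have hfC : ∀ x, |f x| ≤ C := by
    intro x
    rw [hf]
    simp only
    rw [← Real.norm_eq_abs]
    refine (norm_integral_le_of_norm_le_const (C := C) (ae_of_all _ fun y => ?_)).trans ?_
    · rw [Real.norm_eq_abs]; exact hC x y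
    · simp
  have hlt : ∀ a : ℕ, MeasurableSet {N : Tr | a < N []} := fun a =>
    (measurable_pi_apply ([] : List ℕ)) (measurableSet_Ioi (a := a))
  -- step 1
  have s1 : ∫ N, ∑ a ∈ Finset.range (N []), F (del N a) (sub N a) ∂(GW p q) =
      ∑ a ∈ Finset.range D, ∫ N, (if a < N [] then F (del N a) (sub N a) else 0) ∂(GW p q) := by
    rw [← integral_finsetSum]
    · refine integral_congr_ae ?_
      filter_upwards [h.bdd] with N hN
      rw [← Finset.sum_filter]
      refine Finset.sum_congr ?_ fun _ _ => rfl
      ext a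
      simp only [Finset.mem_range, Finset.mem_filter]
      exact ⟨fun ha => ⟨ha.trans_le (hN []), ha⟩, fun ha => ha.2⟩
    · intro a _
      refine integrable_of_bdd ?_ C fun N => ?_
      · exact Measurable.ite (hlt a) (hF.comp ((meas_del a).prodMk (meas_sub a))) measurable_const
      · split_ifs
        · exact hC _ _
        · simpa using hC0
  rw [s1]
  -- step 2, 3
  have s2 : ∀ a ∈ Finset.range D, ∫ N, (if a < N [] then F (del N a) (sub N a) else 0) ∂(GW p q) =
      ∫ N, (if a < N [] then f (dec N) else 0) ∂(GW p q) := by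
    intro a _
    have e1 := integral_setsub p q a (fun N y => if a < N [] then F (del N a) y else 0)
      (by
        refine Measurable.ite ?_ ?_ measurable_const
        · exact measurable_fst (hlt a)
        · exact hF.comp (((meas_del a).comp measurable_fst).prodMk measurable_snd)) C
      (fun x y => by
        split_ifs
        · exact hC _ _
        · simpa using hC0)
      (fun N y => by simp only [setsub_root, del_setsub])
    rw [e1]
    have e2 : ∀ N : Tr, ∫ y, (if a < N [] then F (del N a) y else 0) ∂(GW q q) =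
        if a < N [] then f (dec (fun w => N (skw a w))) else 0 := by
      intro N
      split_ifs with h0
      · rw [hf, ← del_eq]
      · simp
    simp_rw [e2]
    have hmm : Measurable (fun N : Tr => if a < N [] then f (dec N) else 0) :=
      Measurable.ite (hlt a) (hfm.comp meas_dec) measurable_const
    conv_rhs => rw [← GW_skip p q a]
    have hms : Measurable (fun (N : Tr) (w : List ℕ) => N (skw a w)) :=
      measurable_pi_iff.2 fun w => measurable_pi_apply _
    rw [integral_map hms.aemeasurable hmm.aestronglyMeasurable]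
    rfl
  rw [Finset.sum_congr rfl s2, ← integral_finsetSum]
  rotate_left
  · intro a _
    refine integrable_of_bdd ?_ C fun N => ?_
    · exact Measurable.ite (hlt a) (hfm.comp meas_dec) measurable_const
    · split_ifs
      · exact hfC _
      · simpa using hC0
  -- step 4
  have s4 : ∫ N, ∑ a ∈ Finset.range D, (if a < N [] then f (dec N) else 0) ∂(GW p q) =
      ∫ N, (fun (k : ℕ) (N : Tr) => ((min k D : ℕ) : ℝ) * f (setroot (k - 1) N)) (N []) N
        ∂(GW p q) := by
    refine integral_congr_ae ?_
    filter_upwards [h.bdd] with N hN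
    rw [← Finset.sum_filter, Finset.sum_const, nsmul_eq_mul]
    have e1 : (Finset.range D).filter (fun a => a < N []) = Finset.range (min (N []) D) := by
      ext a; simp only [Finset.mem_filter, Finset.mem_range, lt_min_iff]; tauto
    have e2 : dec N = setroot (N [] - 1) N := by
      funext w
      rcases w with _ | ⟨b, v⟩
      · simp [dec, setroot]
      · simp [dec, setroot]
    rw [e1, Finset.card_range, e2]
  have s4' := integral_root (p := p) (q := q)
    (fun (k : ℕ) (N : Tr) => ((min k D : ℕ) : ℝ) * f (setroot (k - 1) N))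
    (fun k => (hfm.comp (meas_setroot.comp (measurable_const.prodMk measurable_id))).const_mul _)
    (D * C)
    (fun k x => by
      rw [abs_mul]
      refine mul_le_mul ?_ (hfC _) (abs_nonneg _) (Nat.cast_nonneg _)
      rw [abs_of_nonneg (Nat.cast_nonneg _)]
      exact_mod_cast min_le_right _ _)
    (fun j k N => by
      congr 2
      funext w
      simp only [setroot]
      split_ifs <;> rfl)
  rw [s4, s4']
  -- step 5
  obtain ⟨φ, hφ⟩ : ∃ φ : ℕ → ℝ, φ = fun j => ∫ N, f (setroot j N) ∂(GW q q) := ⟨_, rfl⟩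
  have hφC : ∀ j, |φ j| ≤ C := by
    intro x
    rw [hφ]
    simp only
    rw [← Real.norm_eq_abs]
    refine (norm_integral_le_of_norm_le_const (C := C) (ae_of_all _ fun y => ?_)).trans ?_
    · rw [Real.norm_eq_abs]; exact hfC _
    · simp
  have s5 : ∫ k, ∫ N, ((min k D : ℕ) : ℝ) * f (setroot (k - 1) N) ∂(GW q q) ∂p =
      ∑' k, p.real {k} * (((min k D : ℕ) : ℝ) * φ (k - 1)) := by
    have e1 : ∀ k : ℕ, ∫ N, ((min k D : ℕ) : ℝ) * f (setroot (k - 1) N) ∂(GW q q) =
        ((min k D : ℕ) : ℝ) * φ (k - 1) := by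
      intro k
      rw [integral_const_mul, hφ]
    simp_rw [e1]
    refine integral_nat _ (D * C) fun k => ?_
    rw [abs_mul]
    refine mul_le_mul ?_ (hφC _) (abs_nonneg _) (Nat.cast_nonneg _)
    rw [abs_of_nonneg (Nat.cast_nonneg _)]
    exact_mod_cast min_le_right _ _
  rw [s5]
  -- step 6
  have s6 : ∫ x, ∫ y, F x y ∂(GW q q) ∂(GW q q) = ∑' j, q.real {j} * φ j := by
    have e1 : ∫ x, ∫ y, F x y ∂(GW q q) ∂(GW q q) =
        ∫ N, (fun (k : ℕ) (N : Tr) => f (setroot k N)) (N []) N ∂(GW q q) := by
      refine integral_congr_ae (ae_of_all _ fun N => ?_)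
      have e2 : setroot (N []) N = N := by
        funext w
        rcases w with _ | ⟨b, v⟩
        · simp [setroot]
        · simp [setroot]
      simp only [e2, hf]
    have e3 := integral_root (p := q) (q := q) (fun (k : ℕ) (N : Tr) => f (setroot k N))
      (fun k => hfm.comp (meas_setroot.comp (measurable_const.prodMk measurable_id))) C
      (fun k x => hfC _)
      (fun j k N => by
        congr 1
        funext w
        simp only [setroot]
        split_ifs <;> rfl)
    rw [e1, e3, integral_nat (fun k => ∫ N, f (setroot k N) ∂(GW q q)) C]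
    · rw [hφ]
    · intro k; have := hφC k; rw [hφ] at this; exact this
  rw [s6]
  rw [tsum_eq_sum (s := Finset.range (D + 1)), tsum_eq_sum (s := Finset.range D),
    Finset.sum_range_succ', Finset.mul_sum]
  · simp only [Nat.zero_min, Nat.cast_zero, zero_mul, mul_zero, add_zero]
    refine Finset.sum_congr rfl fun k hk => ?_
    have hk' : k < D := Finset.mem_range.1 hk
    have e1 : min (k + 1) D = k + 1 := min_eq_left hk'
    rw [e1, Nat.add_sub_cancel, ← mul_assoc, ← mul_assoc, ← h.hq k]
    push_cast
    ring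
  · intro k hk
    have : q {k} = 0 := h.q_zero (by simpa using hk)
    simp [Measure.real, this]
  · intro k hk
    have : p {k} = 0 := h.hp k (by simpa using hk)
    simp [Measure.real, this]

/-- symmetric form -/
theorem mtp_symm (h : Laws D p q mb) (F : Tr → Tr → ℝ) (hF : Measurable (Function.uncurry F))
    (C : ℝ) (hC : ∀ x y, |F x y| ≤ C) :
    ∫ N, ∑ a ∈ Finset.range (N []), F (del N a) (sub N a) ∂(GW p q) =
      ∫ N, ∑ a ∈ Finset.range (N []), F (sub N a) (del N a) ∂(GW p q) := by
  rw [mtp h F hF C hC]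
  have h1 := mtp h (fun x y => F y x) (hF.comp measurable_swap) C (fun x y => hC y x)
  rw [h1]
  congr 1
  exact integral_integral_swap (integrable_of_bdd hF C fun x => hC x.1 x.2)

/-- independence of the subtrees at two children -/
lemma GW_sub_rest (a : ℕ) {A : Set Tr} {B : Set Tr} (hA : MeasurableSet A) (hB : MeasurableSet B)
    (h0 : ∀ N y, setsub a N y ∈ B ↔ N ∈ B) :
    (GW p q) {N | sub N a ∈ A ∧ N ∈ B} = (GW q q) A * (GW p q) B := by
  have hm : MeasurableSet {N : Tr | sub N a ∈ A ∧ N ∈ B} := (meas_sub a hA).inter hB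
  conv_lhs => rw [← GW_setsub p q a]
  rw [Measure.map_apply (meas_setsub a) hm]
  have h1 : (fun x : Tr × Tr => setsub a x.1 x.2) ⁻¹' {N : Tr | sub N a ∈ A ∧ N ∈ B} = B ×ˢ A := by
    ext ⟨N, y⟩
    simp only [Set.mem_preimage, Set.mem_ofPred_eq, sub_setsub, h0, Set.mem_prod]
    tauto
  rw [h1, Measure.prod_prod, mul_comm]

lemma GW_sub_apply (a : ℕ) {A : Set Tr} (hA : MeasurableSet A) :
    (GW p q) {N | sub N a ∈ A} = (GW q q) A := by
  rw [← GW_sub p q a, Measure.map_apply (meas_sub a) hA]
  rfl

end

end Pool.Agent.W909.UG
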