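import Mathlib
import Pool.Agent.W909.UG.Prob

set_option autoImplicit false

/-!
Deterministic facts on the types of trees around the root.
-/

namespace Pool.Agent.W909.UG

open Finset

lemma sk_lt {k a b : ℕ} (ha : a < k) (hb : b < k - 1) : sk a b < k := by
  unfold sk; split_ifs <;> omega

lemma exists_sk {a b : ℕ} {k : ℕ} (ha : a < k) (hb : b < k) (h : b ≠ a) :
    ∃ c < k - 1, sk a c = b := by
  rcases lt_or_gt_of_ne h with h1 | h1
  · exact ⟨b, by omega, by unfold sk; rw [if_pos h1]⟩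
  · exact ⟨b - 1, by omega, by unfold sk; rw [if_neg (by omega)]; omega⟩

lemma range_sk {k a : ℕ} (ha : a < k) :
    (range k).erase a = (range (k - 1)).image (sk a) := by
  ext b
  simp only [mem_erase, mem_range, mem_image]
  constructor
  · rintro ⟨h1, h2⟩
    obtain ⟨c, hc, hcb⟩ := exists_sk ha h2 h1
    exact ⟨c, hc, hcb⟩
  · rintro ⟨c, hc, rfl⟩
    exact ⟨sk_ne a c, sk_lt ha hc⟩

lemma sum_sk {k a : ℕ} (ha : a < k) (f : ℕ → ℝ) :
    ∑ b ∈ range (k - 1), f (sk a b) = ∑ b ∈ (range k).erase a, f b := by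
  rw [range_sk ha, sum_image (fun x _ y _ h => sk_inj a h)]

lemma sum_sk' {k a : ℕ} (ha : a < k) (f : ℕ → ℝ) :
    ∑ b ∈ range (k - 1), f (sk a b) + f a = ∑ b ∈ range k, f b := by
  rw [sum_sk ha, sum_erase_add _ _ (mem_range.2 ha)]

lemma all_sk {k a : ℕ} (ha : a < k) (P : ℕ → Prop) :
    (∀ b < k, P b) ↔ P a ∧ ∀ b < k - 1, P (sk a b) := by
  constructor
  · exact fun h => ⟨h a ha, fun b hb => h _ (sk_lt ha hb)⟩
  · rintro ⟨h1, h2⟩ b hb
    by_cases hab : b = a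
    · rw [hab]; exact h1
    · obtain ⟨c, hc, hcb⟩ := exists_sk ha hb hab
      rw [← hcb]; exact h2 c hc

lemma ex_sk {k a : ℕ} (ha : a < k) (P : ℕ → Prop) :
    (∃ b < k - 1, P (sk a b)) ↔ ∃ b < k, b ≠ a ∧ P b := by
  constructor
  · rintro ⟨b, hb, h⟩
    exact ⟨sk a b, sk_lt ha hb, sk_ne a b, h⟩
  · rintro ⟨b, hb, hab, h⟩
    obtain ⟨c, hc, hcb⟩ := exists_sk ha hb hab
    exact ⟨c, hc, by rw [hcb]; exact h⟩

@[simp] lemma sub_del (N : Tr) (a b : ℕ) : sub (del N a) b = sub N (sk a b) := rfl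

@[simp] lemma del_root (N : Tr) (a : ℕ) : del N a [] = N [] - 1 := rfl

section

variable {D : ℕ} {l : ℝ} (T : Typed D l)

/-- `0 < m N` in terms of the children -/
lemma Typed.pos_iff {N : Tr} (hN : Bdd D N) :
    0 < T.m N ↔ (∀ a < N [], T.fi (sub N a)) ∧ ∑ a ∈ range (N []), T.r (sub N a) = l := by
  constructor
  · intro hm
    have hnf : ¬ T.fi N := fun h => by
      have := (T.hfi N hN h).1; rw [this] at hm; exact lt_irrefl _ hm
    have h1 : ∀ a < N [], T.m (sub N a) = 0 := by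
      intro a ha
      by_contra hne
      have hpos : 0 < T.m (sub N a) := lt_of_le_of_ne (T.hm _ (hN.sub a)).1 (Ne.symm hne)
      exact hnf (T.h1 N hN ⟨a, ha, hpos⟩).1
    have h2 : ∀ a < N [], T.fi (sub N a) := by
      by_contra hne
      push Not at hne
      have := (T.h4 N hN h1 hne).1
      rw [this] at hm; exact lt_irrefl _ hm
    refine ⟨h2, ?_⟩
    by_contra hne
    exact hnf (T.h3 N hN h2 hne).1
  · rintro ⟨h1, h2⟩
    have h3 := T.h2 N hN h1 h2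
    rcases (T.hm N hN).1.lt_or_eq with h4 | h4
    · exact h4
    · rw [← h4, zero_mul] at h3; exact absurd h3 (by norm_num)

lemma Typed.sum_s_nonneg {N : Tr} (hN : Bdd D N) (h : ∀ a < N [], T.fi (sub N a)) :
    0 ≤ ∑ a ∈ range (N []), T.s (sub N a) :=
  sum_nonneg fun a ha => (T.hfi _ (hN.sub a) (h a (mem_range.1 ha))).2.le

/-- a good tree has only finite children -/
lemma Typed.gd_children {N : Tr} (hN : Bdd D N) (h : T.gd N) :
    (∀ a < N [], T.fi (sub N a)) ∧ ∑ a ∈ range (N []), T.r (sub N a) ≠ l := by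
  obtain ⟨hf, hr⟩ := h
  have h1 : ∀ a < N [], T.m (sub N a) = 0 := by
    intro a ha
    by_contra hne
    have hpos : 0 < T.m (sub N a) := lt_of_le_of_ne (T.hm _ (hN.sub a)).1 (Ne.symm hne)
    exact hr (T.h1 N hN ⟨a, ha, hpos⟩).2.1
  have h2 : ∀ a < N [], T.fi (sub N a) := by
    by_contra hne
    push Not at hne
    exact (T.h4 N hN h1 hne).2 hf
  refine ⟨h2, fun h3 => ?_⟩
  have h4 := (T.pos_iff hN).2 ⟨h2, h3⟩
  rw [(T.hfi N hN hf).1] at h4
  exact lt_irrefl _ h4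

/-- some child has positive mass -/
def Typed.B0 (X : Tr) : Prop := ∃ a < X [], 0 < T.m (sub X a)

/-- a finite tree with value zero has a child with positive mass -/
lemma Typed.zero_child {N : Tr} (hN : Bdd D N) (hf : T.fi N) (hr : T.r N = 0) : T.B0 N := by
  by_contra hne
  have h1 : ∀ a < N [], T.m (sub N a) = 0 := by
    intro a ha
    by_contra h
    exact hne ⟨a, ha, lt_of_le_of_ne (T.hm _ (hN.sub a)).1 (Ne.symm h)⟩
  have h2 : ∀ a < N [], T.fi (sub N a) := by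
    by_contra hne
    push Not at hne
    exact (T.h4 N hN h1 hne).2 hf
  by_cases h3 : ∑ a ∈ range (N []), T.r (sub N a) = l
  · have h4 := (T.pos_iff hN).2 ⟨h2, h3⟩
    rw [(T.hfi N hN hf).1] at h4
    exact lt_irrefl _ h4
  · have h4 := (T.h3 N hN h2 h3).2.1
    rw [hr, zero_mul] at h4
    exact absurd h4 (by norm_num)

/-- bare path of `n` vertices ending at a vertex with a child of positive mass -/
def Typed.Bn : ℕ → Tr → Prop
  | 0, X => T.B0 X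
  | n + 1, X => X [] = 1 ∧ Typed.Bn n (sub X 0)

def Typed.BB (X : Tr) : Prop := ∃ n, T.Bn n X

/-- the root of the first tree carries mass after joining the two trees by an edge -/
def Typed.SS (X Y : Tr) : Prop :=
  (∀ a < X [], T.fi (sub X a)) ∧ T.fi Y ∧ ∑ a ∈ range (X []), T.r (sub X a) + T.r Y = l

noncomputable def Typed.MM (X Y : Tr) : ℝ :=
  (1 + ∑ a ∈ range (X []), T.s (sub X a) + T.s Y)⁻¹

lemma Typed.pos_iff_SS {N : Tr} (hN : Bdd D N) {a : ℕ} (ha : a < N []) :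
    0 < T.m N ↔ T.SS (del N a) (sub N a) := by
  rw [T.pos_iff hN, Typed.SS]
  simp only [sub_del, del_root]
  rw [all_sk ha (fun b => T.fi (sub N b)), sum_sk' ha (fun b => T.r (sub N b))]
  tauto

lemma Typed.m_eq {N : Tr} (hN : Bdd D N) {a : ℕ} (ha : a < N []) (h : 0 < T.m N) :
    T.m N = T.MM (del N a) (sub N a) := by
  obtain ⟨h1, h2⟩ := (T.pos_iff hN).1 h
  have h3 := T.h2 N hN h1 h2
  unfold Typed.MM
  simp only [sub_del, del_root]
  rw [add_assoc, sum_sk' ha (fun b => T.s (sub N b))]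
  exact eq_inv_of_mul_eq_one_left h3

lemma Typed.SS_cases {X Y : Tr} (hX : Bdd D X) (hY : Bdd D Y) (h : T.SS X Y) :
    (T.SS Y X ∧ T.gd X ∧ T.gd Y ∧ T.r X * T.r Y = 1 ∧
      T.s X = T.r X ^ 2 * (1 + ∑ a ∈ range (X []), T.s (sub X a)) ∧
      T.s Y = T.r Y ^ 2 * (1 + ∑ a ∈ range (Y []), T.s (sub Y a))) ∨
    (0 < T.m X ∧ T.B0 Y ∧ T.r Y = 0) := by
  obtain ⟨h1, h2, h3⟩ := h
  by_cases hr : T.r Y = 0
  · right
    refine ⟨(T.pos_iff hX).2 ⟨h1, by rw [hr, add_zero] at h3; exact h3⟩,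
      T.zero_child hY h2 hr, hr⟩
  · left
    obtain ⟨h4, h5⟩ := T.gd_children hY ⟨h2, hr⟩
    obtain ⟨-, h6, h7⟩ := T.h3 Y hY h4 h5
    have h8 : ∑ a ∈ range (X []), T.r (sub X a) ≠ l := by
      intro h9; rw [h9] at h3; exact hr (by linarith)
    obtain ⟨h9, h10, h11⟩ := T.h3 X hX h1 h8
    have h12 : T.r X * T.r Y = 1 := by
      rw [← h10]; congr 1; linarith
    have hrX : T.r X ≠ 0 := left_ne_zero_of_mul_eq_one h12
    refine ⟨⟨h4, h9, ?_⟩, ⟨h9, hrX⟩, ⟨h2, hr⟩, h12, h11, h7⟩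
    have h13 : T.r Y * (l - ∑ a ∈ range (Y []), T.r (sub Y a)) = T.r Y * T.r X := by
      rw [h6, mul_comm, h12]
    have h14 := mul_left_cancel₀ hr h13
    linarith

lemma Typed.E1_SS {X Y : Tr} (hX : Bdd D X) (hY : Bdd D Y) (h1 : 0 < T.m X) (h2 : T.B0 Y) :
    T.SS X Y := by
  obtain ⟨h3, h4⟩ := (T.pos_iff hX).1 h1
  obtain ⟨h5, h6, -⟩ := T.h1 Y hY h2
  exact ⟨h3, h5, by rw [h6, add_zero]; exact h4⟩

lemma Typed.E1_not {X Y : Tr} (hX : Bdd D X) (h1 : 0 < T.m X) : ¬ T.SS Y X := by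
  intro h
  have := (T.hfi X hX h.2.1).1
  rw [this] at h1
  exact lt_irrefl _ h1

/-- the shares of the two ends of an inner edge add up to one -/
lemma Typed.share {X Y : Tr} (hX : Bdd D X) (hY : Bdd D Y) (h : T.SS X Y) (h' : T.SS Y X) :
    T.MM X Y * T.s Y + T.MM Y X * T.s X = 1 := by
  rcases T.SS_cases hX hY h with ⟨-, gX, gY, h1, h2, h3⟩ | ⟨h1, -, -⟩
  · have hA : 0 ≤ ∑ a ∈ range (X []), T.s (sub X a) := T.sum_s_nonneg hX h.1
    have hB : 0 ≤ ∑ a ∈ range (Y []), T.s (sub Y a) := T.sum_s_nonneg hY h'.1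
    obtain ⟨A, hA'⟩ : ∃ A, A = ∑ a ∈ range (X []), T.s (sub X a) := ⟨_, rfl⟩
    obtain ⟨B, hB'⟩ : ∃ B, B = ∑ a ∈ range (Y []), T.s (sub Y a) := ⟨_, rfl⟩
    unfold Typed.MM
    rw [← hA'] at h2 hA ⊢
    rw [← hB'] at h3 hB ⊢
    have hrX : T.r X ≠ 0 := left_ne_zero_of_mul_eq_one h1
    have hrY : T.r Y ≠ 0 := right_ne_zero_of_mul_eq_one h1
    have e : T.r X = (T.r Y)⁻¹ := eq_inv_of_mul_eq_one_left h1
    rw [h2, h3, e]
    have p1 : 0 < 1 + A + T.r Y ^ 2 * (1 + B) := by positivity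
    have p2 : 0 < 1 + B + (T.r Y)⁻¹ ^ 2 * (1 + A) := by positivity
    have e2 : 1 + B + (T.r Y)⁻¹ ^ 2 * (1 + A) = (1 + A + T.r Y ^ 2 * (1 + B)) / T.r Y ^ 2 := by
      field_simp; ring
    rw [e2, inv_div]
    field_simp
    ring
  · exact absurd h' (T.E1_not hX h1)

lemma Typed.share1 {X Y : Tr} (hX : Bdd D X) (hY : Bdd D Y) (h1 : 0 < T.m X) (h2 : T.B0 Y) :
    T.MM X Y * T.s Y = T.m X / (T.m X + ∑ a ∈ range (Y []), T.m (sub Y a)) := by
  obtain ⟨h3, h4⟩ := (T.pos_iff hX).1 h1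
  have h5 := T.h2 X hX h3 h4
  obtain ⟨h6, -, h7⟩ := T.h1 Y hY h2
  have hs := (T.hfi Y hY h6).2
  obtain ⟨A, hA⟩ : ∃ A, A = ∑ a ∈ range (X []), T.s (sub X a) := ⟨_, rfl⟩
  obtain ⟨B, hB⟩ : ∃ B, B = ∑ a ∈ range (Y []), T.m (sub Y a) := ⟨_, rfl⟩
  unfold Typed.MM
  rw [← hA] at h5 ⊢
  rw [← hB] at h7 ⊢
  have e1 : 1 + A = (T.m X)⁻¹ := (eq_inv_of_mul_eq_one_right h5)
  have hB0 : 0 < B := by
    by_contra hn
    have : T.s Y * B ≤ 0 := mul_nonpos_of_nonneg_of_nonpos hs.le (not_lt.1 hn)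
    linarith
  have e2 : T.s Y = B⁻¹ := eq_inv_of_mul_eq_one_left h7
  rw [e1, e2]
  field_simp
  ring

end

end Pool.Agent.W909.UG
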