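import Mathlib
import Pool.Agent.W909.UG.Local

set_option autoImplicit false

/-!
Pointwise identities for the sums over the neighbours of the root.
-/

namespace Pool.Agent.W909.UG

open Finset Classical

section

variable {D : ℕ} {l : ℝ} (T : Typed D l)

/-- number of children with positive mass -/
noncomputable def Typed.ic (N : Tr) : ℕ :=
  ((range (N [])).filter (fun a => 0 < T.m (sub N a))).card

noncomputable def Typed.F2 (X Y : Tr) : ℝ :=
  if Bdd D X ∧ Bdd D Y ∧ T.SS X Y ∧ T.SS Y X then T.MM X Y * T.s Y else 0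

noncomputable def Typed.F1 (X Y : Tr) : ℝ :=
  if Bdd D X ∧ Bdd D Y ∧ 0 < T.m X ∧ T.B0 Y then
    T.m X / (T.m X + ∑ a ∈ range (Y []), T.m (sub Y a)) else 0

noncomputable def Typed.G2 (X Y : Tr) : ℝ :=
  if Bdd D X ∧ Bdd D Y ∧ T.SS X Y ∧ T.SS Y X then 1 else 0

noncomputable def Typed.G1 (X Y : Tr) : ℝ :=
  if Bdd D X ∧ Bdd D Y ∧ 0 < T.m X ∧ T.B0 Y then 1 else 0

lemma Typed.B0_del {N : Tr} {a : ℕ} (ha : a < N []) :
    T.B0 (del N a) ↔ ∃ b < N [], b ≠ a ∧ 0 < T.m (sub N b) := by
  unfold Typed.B0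
  simp only [sub_del, del_root]
  exact ex_sk ha (fun b => 0 < T.m (sub N b))

lemma Typed.two_le_ic {N : Tr} {a : ℕ} (ha : a < N []) (hm : 0 < T.m (sub N a)) :
    T.B0 (del N a) ↔ 2 ≤ T.ic N := by
  rw [T.B0_del ha]
  unfold Typed.ic
  have hmem : a ∈ (range (N [])).filter (fun a => 0 < T.m (sub N a)) := by
    simp [ha, hm]
  constructor
  · rintro ⟨b, hb, hab, h⟩
    have hmem' : b ∈ (range (N [])).filter (fun a => 0 < T.m (sub N a)) := by
      simp [hb, h]
    exact one_lt_card.2 ⟨b, hmem', a, hmem, hab⟩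
  · intro h
    obtain ⟨b, hb, hab⟩ := exists_mem_ne (lt_of_lt_of_le one_lt_two h) a
    simp only [mem_filter, mem_range] at hb
    exact ⟨b, hb.1, hab, hb.2⟩

lemma Typed.two_le_ic' {N : Tr} {a : ℕ} (h : 2 ≤ T.ic N) (ha : a < N []) :
    T.B0 (del N a) := by
  rw [T.B0_del ha]
  unfold Typed.ic at h
  obtain ⟨b, hb, hab⟩ := exists_mem_ne (lt_of_lt_of_le one_lt_two h) a
  simp only [mem_filter, mem_range] at hb
  exact ⟨b, hb.1, hab, hb.2⟩

lemma Typed.F1_le (X Y : Tr) : |T.F1 X Y| ≤ 1 := by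
  unfold Typed.F1
  split_ifs with h
  · obtain ⟨h1, h2, h3, -⟩ := h
    have h4 : 0 ≤ ∑ a ∈ range (Y []), T.m (sub Y a) :=
      sum_nonneg fun a _ => (T.hm _ (h2.sub a)).1
    rw [abs_of_nonneg (by positivity)]
    rw [div_le_one (by positivity)]
    linarith
  · simp

lemma Typed.MM_nonneg {X Y : Tr} (hX : Bdd D X) (hY : Bdd D Y) (h : T.SS X Y) :
    0 ≤ T.MM X Y * T.s Y := by
  have h1 := T.sum_s_nonneg hX h.1
  have h2 := (T.hfi Y hY h.2.1).2
  unfold Typed.MM
  positivity

lemma Typed.F2_le (X Y : Tr) : |T.F2 X Y| ≤ 1 := by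
  unfold Typed.F2
  split_ifs with h
  · obtain ⟨h1, h2, h3, h4⟩ := h
    have e := T.share h1 h2 h3 h4
    have p1 := T.MM_nonneg h1 h2 h3
    have p2 := T.MM_nonneg h2 h1 h4
    rw [abs_of_nonneg p1]
    linarith
  · simp

lemma Typed.G2_le (X Y : Tr) : |T.G2 X Y| ≤ 1 := by
  unfold Typed.G2; split_ifs <;> simp

lemma Typed.G1_le (X Y : Tr) : |T.G1 X Y| ≤ 1 := by
  unfold Typed.G1; split_ifs <;> simp

lemma Typed.F2_add (X Y : Tr) : T.F2 X Y + T.F2 Y X = T.G2 X Y := by
  unfold Typed.F2 Typed.G2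
  by_cases h : Bdd D X ∧ Bdd D Y ∧ T.SS X Y ∧ T.SS Y X
  · have h' : Bdd D Y ∧ Bdd D X ∧ T.SS Y X ∧ T.SS X Y := ⟨h.2.1, h.1, h.2.2.2, h.2.2.1⟩
    rw [if_pos h, if_pos h', if_pos h]
    exact T.share h.1 h.2.1 h.2.2.1 h.2.2.2
  · have h' : ¬ (Bdd D Y ∧ Bdd D X ∧ T.SS Y X ∧ T.SS X Y) := by tauto
    rw [if_neg h, if_neg h', if_neg h, add_zero]

lemma Typed.G2_comm (X Y : Tr) : T.G2 X Y = T.G2 Y X := by
  unfold Typed.G2
  congr 1
  rw [eq_iff_iff]
  tauto

/-- the mass of the root -/
lemma Typed.P1 {N : Tr} (hN : Bdd D N) :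
    T.m N = (if 0 < T.m N then 1 else 0) -
      ∑ a ∈ range (N []), (T.F1 (del N a) (sub N a) + T.F2 (del N a) (sub N a)) := by
  by_cases hm : 0 < T.m N
  · rw [if_pos hm]
    obtain ⟨h1, h2⟩ := (T.pos_iff hN).1 hm
    have h3 := T.h2 N hN h1 h2
    have h4 : ∀ a ∈ range (N []), T.F1 (del N a) (sub N a) + T.F2 (del N a) (sub N a) =
        T.m N * T.s (sub N a) := by
      intro a ha
      have ha' := mem_range.1 ha
      have hS := (T.pos_iff_SS hN ha').1 hm
      have hD := hN.del a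
      have hs := hN.sub a
      rw [T.m_eq hN ha' hm]
      unfold Typed.F1 Typed.F2
      rcases T.SS_cases hD hs hS with ⟨h5, h6, -⟩ | ⟨h5, h6, -⟩
      · have h7 : ¬ (Bdd D (del N a) ∧ Bdd D (sub N a) ∧ 0 < T.m (del N a) ∧ T.B0 (sub N a)) := by
          rintro ⟨-, -, h8, -⟩
          exact T.E1_not hD h8 h5
        rw [if_neg h7, if_pos ⟨hD, hs, hS, h5⟩, zero_add]
      · rw [if_pos ⟨hD, hs, h5, h6⟩, if_neg, add_zero, T.share1 hD hs h5 h6]
        rintro ⟨-, -, -, h8⟩
        exact T.E1_not hD h5 h8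
    rw [sum_congr rfl h4, ← mul_sum]
    linarith
  · rw [if_neg hm]
    have hm0 : T.m N = 0 := le_antisymm (not_lt.1 hm) (T.hm N hN).1
    rw [hm0, sum_eq_zero, sub_zero]
    intro a ha
    have ha' := mem_range.1 ha
    have hS : ¬ T.SS (del N a) (sub N a) := fun h => hm ((T.pos_iff_SS hN ha').2 h)
    unfold Typed.F1 Typed.F2
    rw [if_neg, if_neg, add_zero]
    · rintro ⟨-, -, h, -⟩; exact hS h
    · rintro ⟨h1, h2, h3, h4⟩; exact hS (T.E1_SS h1 h2 h3 h4)

lemma Typed.P2 {N : Tr} (hN : Bdd D N) :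
    ∑ a ∈ range (N []), T.F1 (sub N a) (del N a) = if 2 ≤ T.ic N then 1 else 0 := by
  have h1 : ∀ a ∈ range (N []), T.F1 (sub N a) (del N a) =
      if 2 ≤ T.ic N then T.m (sub N a) / ∑ b ∈ range (N []), T.m (sub N b) else 0 := by
    intro a ha
    have ha' := mem_range.1 ha
    unfold Typed.F1
    simp only [sub_del, del_root]
    rw [add_comm (T.m (sub N a)), sum_sk' ha' (fun b => T.m (sub N b))]
    by_cases hm : 0 < T.m (sub N a)
    · by_cases h2 : 2 ≤ T.ic N
      · rw [if_pos ⟨hN.sub a, hN.del a, hm, (T.two_le_ic ha' hm).2 h2⟩, if_pos h2]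
      · rw [if_neg h2, if_neg]
        rintro ⟨-, -, -, h⟩
        exact h2 ((T.two_le_ic ha' hm).1 h)
    · rw [if_neg (fun h => hm h.2.2.1)]
      have hm0 : T.m (sub N a) = 0 := le_antisymm (not_lt.1 hm) (T.hm _ (hN.sub a)).1
      rw [hm0, zero_div]
      simp
  rw [sum_congr rfl h1]
  split_ifs with h2
  · rw [← sum_div]
    have h3 : 0 < ∑ b ∈ range (N []), T.m (sub N b) := by
      have h4 : ((range (N [])).filter (fun a => 0 < T.m (sub N a))).Nonempty := by
        rw [← card_pos]; unfold Typed.ic at h2; omega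
      obtain ⟨a, ha⟩ := h4
      simp only [mem_filter] at ha
      exact sum_pos' (fun b _ => (T.hm _ (hN.sub b)).1) ⟨a, ha.1, ha.2⟩
    exact div_self h3.ne'
  · simp

lemma Typed.P4 {N : Tr} (hN : Bdd D N) :
    ∑ a ∈ range (N []), T.G1 (sub N a) (del N a) = if 2 ≤ T.ic N then (T.ic N : ℝ) else 0 := by
  have h1 : ∀ a ∈ range (N []), T.G1 (sub N a) (del N a) =
      if 2 ≤ T.ic N then (if 0 < T.m (sub N a) then 1 else 0) else 0 := by
    intro a ha
    have ha' := mem_range.1 ha
    unfold Typed.G1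
    by_cases hm : 0 < T.m (sub N a)
    · by_cases h2 : 2 ≤ T.ic N
      · rw [if_pos ⟨hN.sub a, hN.del a, hm, (T.two_le_ic ha' hm).2 h2⟩, if_pos h2, if_pos hm]
      · rw [if_neg h2, if_neg]
        rintro ⟨-, -, -, h⟩
        exact h2 ((T.two_le_ic ha' hm).1 h)
    · rw [if_neg (fun h => hm h.2.2.1), if_neg hm]
      simp
  rw [sum_congr rfl h1]
  split_ifs with h2
  · rw [← sum_filter, sum_const, nsmul_eq_mul, mul_one]; rfl
  · simp

lemma Typed.P3 {N : Tr} (hN : Bdd D N) :
    (if 0 < T.m N then (N [] : ℝ) else 0) = ∑ a ∈ range (N []), T.G2 (del N a) (sub N a) +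
      ∑ a ∈ range (N []), T.G1 (del N a) (sub N a) := by
  rw [← sum_add_distrib]
  have h1 : ∀ a ∈ range (N []), T.G2 (del N a) (sub N a) + T.G1 (del N a) (sub N a) =
      if 0 < T.m N then 1 else 0 := by
    intro a ha
    have ha' := mem_range.1 ha
    have hD := hN.del a
    have hs := hN.sub a
    unfold Typed.G1 Typed.G2
    split_ifs with h2 h3 h4 h5 h6 h7 h8
    · exact absurd h2.2.2.2 (T.E1_not hD h3.2.2.1)
    · exact absurd h2.2.2.2 (T.E1_not hD h3.2.2.1)
    · norm_num
    · exact absurd ((T.pos_iff_SS hN ha').2 h2.2.2.1) h5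
    · norm_num
    · exact absurd ((T.pos_iff_SS hN ha').2 (T.E1_SS hD hs h6.2.2.1 h6.2.2.2)) h7
    · exfalso
      rcases T.SS_cases hD hs ((T.pos_iff_SS hN ha').1 h8) with ⟨h9, -⟩ | ⟨h9, h10, -⟩
      · exact h2 ⟨hD, hs, (T.pos_iff_SS hN ha').1 h8, h9⟩
      · exact h6 ⟨hD, hs, h9, h10⟩
    · norm_num
  rw [sum_congr rfl h1, sum_const, card_range, nsmul_eq_mul]
  split_ifs <;> simp

/-! heights -/

lemma Typed.ht_le (n : ℕ) (N : Tr) : T.ht n N ≤ n := by
  induction n generalizing N with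
  | zero => simp [Typed.ht]
  | succ n ih =>
    have h : (range (N [])).sup
        (fun a => if T.gd (sub N a) then T.ht n (sub N a) else 0) ≤ n := by
      refine Finset.sup_le fun a _ => ?_
      split_ifs
      · exact ih _
      · exact Nat.zero_le _
    simp only [Typed.ht]
    omega

lemma Typed.ht_mono (n : ℕ) (N : Tr) : T.ht n N ≤ T.ht (n + 1) N := by
  induction n generalizing N with
  | zero => simp [Typed.ht]
  | succ n ih =>
    have h : (range (N [])).sup
        (fun a => if T.gd (sub N a) then T.ht n (sub N a) else 0) ≤ (range (N [])).sup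
        (fun a => if T.gd (sub N a) then T.ht (n + 1) (sub N a) else 0) := by
      refine Finset.sup_mono_fun fun a _ => ?_
      split_ifs
      · exact ih _
      · exact Nat.zero_le _
    rw [Typed.ht.eq_2, Typed.ht.eq_2]
    omega

/-- weight of an inner edge -/
noncomputable def Typed.ww (L : ℕ) (X Y : Tr) : ℝ :=
  1 / 2 + ((T.ht L Y : ℝ) - T.ht L X) / (2 * L)

lemma Typed.ww_nonneg {L : ℕ} (hL : 1 ≤ L) (X Y : Tr) : 0 ≤ T.ww L X Y := by
  unfold Typed.ww
  have h1 : (T.ht L X : ℝ) ≤ L := by exact_mod_cast T.ht_le L X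
  have h2 : (0 : ℝ) ≤ T.ht L Y := Nat.cast_nonneg _
  have h3 : (0 : ℝ) < L := by exact_mod_cast hL
  have h4 : -(1 / 2 : ℝ) ≤ ((T.ht L Y : ℝ) - T.ht L X) / (2 * L) := by
    rw [le_div_iff₀ (by positivity)]; linarith
  linarith

lemma Typed.ww_le {L : ℕ} (hL : 1 ≤ L) (X Y : Tr) : T.ww L X Y ≤ 1 := by
  unfold Typed.ww
  have h1 : (T.ht L Y : ℝ) ≤ L := by exact_mod_cast T.ht_le L Y
  have h2 : (0 : ℝ) ≤ T.ht L X := Nat.cast_nonneg _
  have h3 : (0 : ℝ) < L := by exact_mod_cast hL
  have h4 : ((T.ht L Y : ℝ) - T.ht L X) / (2 * L) ≤ 1 / 2 := by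
    rw [div_le_iff₀ (by positivity)]; linarith
  linarith

lemma Typed.ww_add {L : ℕ} (X Y : Tr) : T.ww L X Y + T.ww L Y X = 1 := by
  unfold Typed.ww; ring

/-- the height after removing a child -/
lemma Typed.ht_del {L : ℕ} (hL : 1 ≤ L) {N : Tr} {a : ℕ} (ha : a < N []) :
    T.ht L (del N a) ≤ 1 + ((range (N [])).erase a).sup
      (fun b => if T.gd (sub N b) then T.ht L (sub N b) else 0) := by
  obtain ⟨L, rfl⟩ : ∃ L', L = L' + 1 := ⟨L - 1, by omega⟩
  conv_lhs => rw [Typed.ht.eq_2]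
  rw [range_sk ha, sup_image]
  refine Nat.add_le_add_left ?_ 1
  simp only [del_root]
  refine Finset.sup_mono_fun fun b _ => ?_
  change (if T.gd (sub N (sk a b)) then T.ht L (sub N (sk a b)) else 0) ≤
    (if T.gd (sub N (sk a b)) then T.ht (L + 1) (sub N (sk a b)) else 0)
  by_cases h : T.gd (sub N (sk a b))
  · rw [if_pos h, if_pos h]
    exact T.ht_mono _ _
  · rw [if_neg h, if_neg h]

lemma Typed.P6 {L : ℕ} (hL : 1 ≤ L) {N : Tr} (hN : Bdd D N) (hm : 0 < T.m N)
    (hh : ∃ a < N [], T.gd (sub N a) ∧ T.ht L (sub N a) = L) :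
    1 - 1 / (2 * (L : ℝ)) ≤
      ∑ a ∈ range (N []), T.G2 (del N a) (sub N a) * T.ww L (del N a) (sub N a) := by
  obtain ⟨a, ha, hg, hht⟩ := hh
  have hLpos : (0 : ℝ) < L := by exact_mod_cast hL
  -- on good children G2 = 1
  have hG : ∀ b < N [], T.gd (sub N b) → T.G2 (del N b) (sub N b) = 1 := by
    intro b hb hgb
    have hS := (T.pos_iff_SS hN hb).1 hm
    unfold Typed.G2
    rw [if_pos]
    refine ⟨hN.del b, hN.sub b, hS, ?_⟩
    rcases T.SS_cases (hN.del b) (hN.sub b) hS with ⟨h9, -⟩ | ⟨-, -, h9⟩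
    · exact h9
    · exact absurd h9 hgb.2
  have hnn : ∀ b ∈ range (N []), 0 ≤ T.G2 (del N b) (sub N b) * T.ww L (del N b) (sub N b) := by
    intro b _
    refine mul_nonneg ?_ (T.ww_nonneg hL _ _)
    unfold Typed.G2; split_ifs <;> norm_num
  obtain ⟨h2, hh2⟩ : ∃ h2, h2 = ((range (N [])).erase a).sup
      (fun b => if T.gd (sub N b) then T.ht L (sub N b) else 0) := ⟨_, rfl⟩
  have hd := T.ht_del hL ha
  rw [← hh2] at hd
  have hd' : (T.ht L (del N a) : ℝ) ≤ 1 + h2 := by exact_mod_cast hd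
  have t1 : T.ww L (del N a) (sub N a) ≥ 1 / 2 + ((L : ℝ) - 1 - h2) / (2 * L) := by
    unfold Typed.ww
    rw [hht]
    have : ((L : ℝ) - 1 - h2) / (2 * L) ≤ ((L : ℝ) - T.ht L (del N a)) / (2 * L) :=
      div_le_div_of_nonneg_right (by linarith) (by positivity)
    linarith
  rcases Nat.eq_zero_or_pos h2 with h0 | hpos
  · have e1 := single_le_sum hnn (mem_range.2 ha)
    rw [hG a ha hg, one_mul] at e1
    refine le_trans ?_ e1
    refine le_trans ?_ t1
    rw [h0]
    have : ((L : ℝ) - 1 - (0 : ℕ)) / (2 * L) = 1 / 2 - 1 / (2 * L) := by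
      field_simp; push_cast; ring
    rw [this]
    linarith
  · -- a second child realising the maximum
    have hne : ((range (N [])).erase a).Nonempty := by
      by_contra hne
      rw [not_nonempty_iff_eq_empty] at hne
      rw [hne, sup_empty] at hh2
      simp at hh2; omega
    obtain ⟨b, hb, hb2⟩ := exists_mem_eq_sup _ hne
      (fun b => if T.gd (sub N b) then T.ht L (sub N b) else 0)
    rw [← hh2] at hb2
    have hgb : T.gd (sub N b) := by
      by_contra h
      rw [if_neg h] at hb2; omega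
    rw [if_pos hgb] at hb2
    have hab := ne_of_mem_erase hb
    have hb' := mem_range.1 (mem_of_mem_erase hb)
    have t2 : T.ww L (del N b) (sub N b) ≥ 1 / 2 + ((h2 : ℝ) - L) / (2 * L) := by
      unfold Typed.ww
      rw [← hb2]
      have h5 : (T.ht L (del N b) : ℝ) ≤ L := by exact_mod_cast T.ht_le L _
      have : ((h2 : ℝ) - L) / (2 * L) ≤ ((h2 : ℝ) - T.ht L (del N b)) / (2 * L) :=
        div_le_div_of_nonneg_right (by linarith) (by positivity)
      linarith
    have e1 : ∑ c ∈ ({a, b} : Finset ℕ), T.G2 (del N c) (sub N c) * T.ww L (del N c) (sub N c) ≤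
        ∑ c ∈ range (N []), T.G2 (del N c) (sub N c) * T.ww L (del N c) (sub N c) := by
      refine sum_le_sum_of_subset_of_nonneg ?_ fun c hc _ => hnn c hc
      intro c hc
      simp only [mem_insert, mem_singleton] at hc
      rcases hc with rfl | rfl
      · exact mem_range.2 ha
      · exact mem_range.2 hb'
    rw [sum_pair (Ne.symm hab), hG a ha hg, hG b hb' hgb, one_mul, one_mul] at e1
    refine le_trans ?_ e1
    have : ((L : ℝ) - 1 - h2) / (2 * L) + ((h2 : ℝ) - L) / (2 * L) = - (1 / (2 * L)) := by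
      field_simp; ring
    linarith

/-! flow along bare paths -/

noncomputable def Typed.ff (X Y : Tr) : ℝ :=
  if Bdd D X ∧ Bdd D Y ∧ (T.SS X Y ∨ T.SS Y X) ∧ T.BB X then 1 else 0

lemma Typed.ff_le (X Y : Tr) : |T.ff X Y| ≤ 1 := by
  unfold Typed.ff; split_ifs <;> simp

lemma Typed.ff_nonneg (X Y : Tr) : 0 ≤ T.ff X Y := by
  unfold Typed.ff; split_ifs <;> simp

lemma Typed.P7 {N : Tr} (hN : Bdd D N) (h2 : 2 ≤ N []) :
    ∑ a ∈ range (N []), (if 0 < T.m (sub N a) ∧ ¬ T.BB (sub N a) ∧ T.B0 (del N a) then 1 else 0) -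
      (if 0 < T.m N then 3 * ((N [] : ℝ) - 2) else 0) ≤
    ∑ a ∈ range (N []), T.ff (del N a) (sub N a) -
      ∑ a ∈ range (N []), T.ff (sub N a) (del N a) := by
  by_cases hm : 0 < T.m N
  · -- the root carries mass
    rw [if_pos hm]
    obtain ⟨c1, c2⟩ := (T.pos_iff hN).1 hm
    have c0 : ∀ a < N [], ¬ 0 < T.m (sub N a) := by
      intro a ha h
      rw [(T.hfi _ (hN.sub a) (c1 a ha)).1] at h
      exact lt_irrefl _ h
    rw [sum_eq_zero (fun a ha => if_neg (fun h => c0 a (mem_range.1 ha) h.1)), zero_sub]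
    have hB0 : ∀ a < N [], ¬ T.B0 (del N a) := by
      intro a ha h
      obtain ⟨b, hb, -, h3⟩ := (T.B0_del ha).1 h
      exact c0 b hb h3
    rcases Nat.lt_or_ge 2 (N []) with h3 | h3
    · -- at least three neighbours: no outflow
      have e1 : ∑ a ∈ range (N []), T.ff (del N a) (sub N a) = 0 := by
        refine sum_eq_zero fun a ha => ?_
        unfold Typed.ff
        rw [if_neg]
        rintro ⟨-, -, -, n, hn⟩
        rcases n with _ | n
        · exact hB0 a (mem_range.1 ha) hn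
        · have := hn.1
          simp only [del_root] at this
          omega
      have e2 : ∑ a ∈ range (N []), T.ff (sub N a) (del N a) ≤ N [] := by
        calc _ ≤ ∑ a ∈ range (N []), (1 : ℝ) :=
              sum_le_sum fun a _ => (le_abs_self _).trans (T.ff_le _ _)
          _ = N [] := by simp
      rw [e1]
      have h3' : (3 : ℝ) ≤ N [] := by exact_mod_cast h3
      linarith
    · -- exactly two neighbours
      have h4 : N [] = 2 := le_antisymm h3 h2
      rw [h4]
      simp only [sum_range_succ, sum_range_zero, zero_add]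
      have key : ∀ a b : ℕ, a < 2 → b < 2 → a ≠ b →
          T.ff (del N a) (sub N a) = T.ff (sub N b) (del N b) := by
        intro a b ha hb hab
        have hsk : sk a 0 = b := by unfold sk; split_ifs <;> omega
        unfold Typed.ff
        have hSa := (T.pos_iff_SS hN (a := a) (by omega)).1 hm
        have hSb := (T.pos_iff_SS hN (a := b) (by omega)).1 hm
        have hBB : T.BB (del N a) ↔ T.BB (sub N b) := by
          constructor
          · rintro ⟨n, hn⟩
            rcases n with _ | n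
            · exact absurd hn (hB0 a (by omega))
            · have h5 := hn.2
              rw [sub_del, hsk] at h5
              exact ⟨n, h5⟩
          · rintro ⟨n, hn⟩
            refine ⟨n + 1, by simp [h4], ?_⟩
            rw [sub_del, hsk]; exact hn
        have p1 := hN.del a
        have p2 := hN.sub a
        have p3 := hN.del b
        have p4 := hN.sub b
        by_cases hb0 : T.BB (sub N b)
        · rw [if_pos ⟨p1, p2, Or.inl hSa, hBB.2 hb0⟩, if_pos ⟨p4, p3, Or.inr hSb, hb0⟩]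
        · rw [if_neg (fun h => hb0 (hBB.1 h.2.2.2)), if_neg (fun h => hb0 h.2.2.2)]
      rw [key 0 1 (by norm_num) (by norm_num) (by norm_num),
        key 1 0 (by norm_num) (by norm_num) (by norm_num)]
      push_cast
      linarith
  · -- the root carries no mass
    rw [if_neg hm, sub_zero, ← sum_sub_distrib]
    refine sum_le_sum fun a ha => ?_
    have ha' := mem_range.1 ha
    have p1 := hN.del a
    have p2 := hN.sub a
    have hS : ¬ T.SS (del N a) (sub N a) := fun h => hm ((T.pos_iff_SS hN ha').2 h)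
    by_cases hS' : T.SS (sub N a) (del N a)
    · rcases T.SS_cases p2 p1 hS' with ⟨h5, -⟩ | ⟨h5, h6, -⟩
      · exact absurd h5 hS
      · have e1 : T.ff (del N a) (sub N a) = 1 := by
          unfold Typed.ff
          rw [if_pos ⟨p1, p2, Or.inr hS', ⟨0, h6⟩⟩]
        rw [e1]
        by_cases hb : T.BB (sub N a)
        · rw [if_neg (fun h => h.2.1 hb)]
          have := (le_abs_self _).trans (T.ff_le (sub N a) (del N a))
          linarith
        · have e2 : T.ff (sub N a) (del N a) = 0 := by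
            unfold Typed.ff
            rw [if_neg (fun h => hb h.2.2.2)]
          rw [e2]
          split_ifs <;> norm_num
    · have e1 : T.ff (del N a) (sub N a) = 0 := by
        unfold Typed.ff
        rw [if_neg]
        rintro ⟨-, -, h | h, -⟩
        · exact hS h
        · exact hS' h
      have e2 : T.ff (sub N a) (del N a) = 0 := by
        unfold Typed.ff
        rw [if_neg]
        rintro ⟨-, -, h | h, -⟩
        · exact hS' h
        · exact hS h
      rw [e1, e2, if_neg]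
      · norm_num
      · rintro ⟨h1, -, h3⟩
        exact hS' (T.E1_SS p2 p1 h1 h3)

/-- a bare path has small height -/
lemma Typed.ht_Bn (n k : ℕ) {N : Tr} (hN : Bdd D N) (h : T.Bn (n + 1) N) : T.ht k N ≤ n + 1 := by
  induction n generalizing k N with
  | zero =>
    rcases k with _ | k
    · simp [Typed.ht]
    · obtain ⟨h1, h2⟩ := h
      simp only [Typed.ht, h1, range_one, sup_singleton]
      rw [if_neg]
      intro h3
      have h4 := (T.h1 _ (hN.sub 0) h2).2.1
      exact h3.2 h4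
  | succ n ih =>
    rcases k with _ | k
    · simp [Typed.ht]
    · obtain ⟨h1, h2⟩ := h
      simp only [Typed.ht, h1, range_one, sup_singleton]
      split_ifs
      · have := ih k (hN.sub 0) h2
        omega
      · omega

/-- a tree of positive mass which is a bare path is a long one -/
lemma Typed.Bn_long {L : ℕ} {N : Tr} (hN : Bdd D N) (hm : 0 < T.m N)
    (hh : ∃ a < N [], T.gd (sub N a) ∧ T.ht L (sub N a) = L) {n : ℕ} (h : T.Bn n N) :
    L < n := by
  rcases n with _ | n
  · exfalso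
    obtain ⟨a, ha, h1⟩ := h
    have h2 := ((T.pos_iff hN).1 hm).1 a ha
    rw [(T.hfi _ (hN.sub a) h2).1] at h1
    exact lt_irrefl _ h1
  · obtain ⟨h1, h2⟩ := h
    obtain ⟨a, ha, h3, h4⟩ := hh
    have ha0 : a = 0 := by omega
    subst ha0
    rcases n with _ | n
    · exact absurd (T.h1 _ (hN.sub 0) h2).2.1 h3.2
    · have := T.ht_Bn n L (hN.sub 0) h2
      omega

end

end Pool.Agent.W909.UG
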