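import Mathlib
import Pool.Agent.W909.UG.Local2

set_option autoImplicit false

/-!
Measurability of the local quantities.
-/

namespace Pool.Agent.W909.UG

open MeasureTheory Finset Classical

/-- functions of the number of children and the tree -/
lemma meas_root {β : Type*} [MeasurableSpace β] (G : ℕ → Tr → β) (hG : ∀ k, Measurable (G k)) :
    Measurable (fun X : Tr => G (X []) X) := by
  have h0 : Measurable (fun x : ℕ × Tr => G x.1 x.2) := measurable_from_prod_countable_right hG
  have h1 : Measurable (fun N : Tr => (N [], N)) := (measurable_pi_apply _).prodMk measurable_id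
  exact h0.comp h1

lemma meas_sum {f : Tr → ℝ} (hf : Measurable f) :
    Measurable (fun X : Tr => ∑ a ∈ range (X []), f (sub X a)) :=
  meas_root (fun k X => ∑ a ∈ range k, f (sub X a)) fun k =>
    Finset.measurable_fun_sum _ fun a _ => hf.comp (meas_sub a)

lemma meas_lt (a : ℕ) : MeasurableSet {X : Tr | a < X []} :=
  (measurable_pi_apply ([] : List ℕ)) (measurableSet_Ioi (a := a))

lemma meas_all {A : Set Tr} (hA : MeasurableSet A) :
    MeasurableSet {X : Tr | ∀ a < X [], sub X a ∈ A} := by
  have : {X : Tr | ∀ a < X [], sub X a ∈ A} =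
      ⋂ a : ℕ, ({X : Tr | a < X []}ᶜ ∪ (fun X => sub X a) ⁻¹' A) := by
    ext X
    simp only [Set.mem_iInter, Set.mem_union, Set.mem_compl_iff, Set.mem_preimage]
    exact forall_congr' fun a => imp_iff_not_or
  rw [this]
  exact MeasurableSet.iInter fun a => (meas_lt a).compl.union (meas_sub a hA)

lemma meas_ex {A : Set Tr} (hA : MeasurableSet A) :
    MeasurableSet {X : Tr | ∃ a < X [], sub X a ∈ A} := by
  have : {X : Tr | ∃ a < X [], sub X a ∈ A} =
      ⋃ a : ℕ, ({X : Tr | a < X []} ∩ (fun X => sub X a) ⁻¹' A) := by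
    ext X
    simp only [Set.mem_iUnion, Set.mem_inter_iff, Set.mem_preimage]
    rfl
  rw [this]
  exact MeasurableSet.iUnion fun a => (meas_lt a).inter (meas_sub a hA)

lemma meas_bdd (D : ℕ) : MeasurableSet {X : Tr | Bdd D X} := by
  have : {X : Tr | Bdd D X} = ⋂ w : List ℕ, (fun X : Tr => X w) ⁻¹' (Set.Iic D) := by
    ext X
    simp only [Set.mem_iInter]
    rfl
  rw [this]
  exact MeasurableSet.iInter fun w => (measurable_pi_apply w) measurableSet_Iic

section

variable {D : ℕ} {l : ℝ} {T : Typed D l}

structure Typed.Meas (T : Typed D l) : Prop where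
  hm : Measurable T.m
  hfi : MeasurableSet {N | T.fi N}
  hr : Measurable T.r
  hs : Measurable T.s

lemma Typed.Meas.pos (h : T.Meas) : MeasurableSet {N : Tr | 0 < T.m N} :=
  measurableSet_lt measurable_const h.hm

lemma Typed.Meas.B0 (h : T.Meas) : MeasurableSet {N : Tr | T.B0 N} := meas_ex h.pos

lemma Typed.Meas.Bn (h : T.Meas) (n : ℕ) : MeasurableSet {N : Tr | T.Bn n N} := by
  induction n with
  | zero => exact h.B0
  | succ n ih =>
    have : {N : Tr | T.Bn (n + 1) N} = {N : Tr | N [] = 1} ∩ (fun X => sub X 0) ⁻¹' {N | T.Bn n N} :=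
      rfl
    rw [this]
    exact ((measurable_pi_apply _) (measurableSet_singleton 1)).inter (meas_sub 0 ih)

lemma Typed.Meas.BB (h : T.Meas) : MeasurableSet {N : Tr | T.BB N} := by
  have : {N : Tr | T.BB N} = ⋃ n : ℕ, {N : Tr | T.Bn n N} := by
    ext X
    simp only [Set.mem_iUnion]
    rfl
  rw [this]
  exact MeasurableSet.iUnion h.Bn

lemma Typed.Meas.SS (h : T.Meas) : MeasurableSet {x : Tr × Tr | T.SS x.1 x.2} := by
  have : {x : Tr × Tr | T.SS x.1 x.2} =
      (Prod.fst ⁻¹' {X : Tr | ∀ a < X [], sub X a ∈ {N | T.fi N}}) ∩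
      ((Prod.snd ⁻¹' {N | T.fi N}) ∩
      {x : Tr × Tr | ∑ a ∈ range (x.1 []), T.r (sub x.1 a) + T.r x.2 = l}) := rfl
  rw [this]
  refine (measurable_fst (meas_all h.hfi)).inter ((measurable_snd h.hfi).inter ?_)
  exact measurableSet_eq_fun (((meas_sum h.hr).comp measurable_fst).add
    (h.hr.comp measurable_snd)) measurable_const

lemma Typed.Meas.SS' (h : T.Meas) : MeasurableSet {x : Tr × Tr | T.SS x.2 x.1} :=
  measurable_swap h.SS

lemma Typed.Meas.MM (h : T.Meas) : Measurable (fun x : Tr × Tr => T.MM x.1 x.2) := by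
  unfold Typed.MM
  exact ((measurable_const.add ((meas_sum h.hs).comp measurable_fst)).add
    (h.hs.comp measurable_snd)).inv

lemma Typed.Meas.E2 (h : T.Meas) : MeasurableSet
    {x : Tr × Tr | Bdd D x.1 ∧ Bdd D x.2 ∧ T.SS x.1 x.2 ∧ T.SS x.2 x.1} :=
  (measurable_fst (meas_bdd D)).inter ((measurable_snd (meas_bdd D)).inter (h.SS.inter h.SS'))

lemma Typed.Meas.E1 (h : T.Meas) : MeasurableSet
    {x : Tr × Tr | Bdd D x.1 ∧ Bdd D x.2 ∧ 0 < T.m x.1 ∧ T.B0 x.2} :=
  (measurable_fst (meas_bdd D)).inter ((measurable_snd (meas_bdd D)).inter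
    ((measurable_fst h.pos).inter (measurable_snd h.B0)))

lemma Typed.Meas.F2 (h : T.Meas) : Measurable (Function.uncurry T.F2) := by
  unfold Typed.F2 Function.uncurry
  exact Measurable.ite h.E2 (h.MM.mul (h.hs.comp measurable_snd)) measurable_const

lemma Typed.Meas.F1 (h : T.Meas) : Measurable (Function.uncurry T.F1) := by
  unfold Typed.F1 Function.uncurry
  exact Measurable.ite h.E1 ((h.hm.comp measurable_fst).div ((h.hm.comp measurable_fst).add
    ((meas_sum h.hm).comp measurable_snd))) measurable_const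

lemma Typed.Meas.G2 (h : T.Meas) : Measurable (Function.uncurry T.G2) := by
  unfold Typed.G2 Function.uncurry
  exact Measurable.ite h.E2 measurable_const measurable_const

lemma Typed.Meas.G1 (h : T.Meas) : Measurable (Function.uncurry T.G1) := by
  unfold Typed.G1 Function.uncurry
  exact Measurable.ite h.E1 measurable_const measurable_const

lemma Typed.Meas.ff (h : T.Meas) : Measurable (Function.uncurry T.ff) := by
  unfold Typed.ff Function.uncurry
  refine Measurable.ite ?_ measurable_const measurable_const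
  exact (measurable_fst (meas_bdd D)).inter ((measurable_snd (meas_bdd D)).inter
    ((h.SS.union h.SS').inter (measurable_fst h.BB)))

lemma Typed.Meas.gd (h : T.Meas) : MeasurableSet {N : Tr | T.gd N} :=
  h.hfi.inter (measurableSet_eq_fun h.hr measurable_const).compl

lemma Typed.Meas.ht (h : T.Meas) (n : ℕ) : Measurable (T.ht n) := by
  induction n with
  | zero =>
    have : T.ht 0 = fun _ => 0 := by funext; rfl
    rw [this]; exact measurable_const
  | succ n ih =>
    have : T.ht (n + 1) = fun X : Tr => (fun (k : ℕ) (X : Tr) => 1 + (Finset.range k).sup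
      (fun a => if T.gd (sub X a) then T.ht n (sub X a) else 0)) (X []) X := by
      funext X; rfl
    rw [this]
    refine meas_root (β := ℕ) (fun (k : ℕ) (X : Tr) => 1 + (Finset.range k).sup
      (fun a => if T.gd (sub X a) then T.ht n (sub X a) else 0)) fun k => ?_
    refine Measurable.add (f := fun _ => 1) measurable_const ?_
    induction k with
    | zero => simp
    | succ k ihk =>
      have h2 : (fun X : Tr => (Finset.range (k + 1)).sup
          (fun a => if T.gd (sub X a) then T.ht n (sub X a) else 0)) =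
          fun X : Tr => (if T.gd (sub X k) then T.ht n (sub X k) else 0) ⊔ (Finset.range k).sup
          (fun a => if T.gd (sub X a) then T.ht n (sub X a) else 0) := by
        funext X
        rw [range_add_one, sup_insert]
      rw [h2]
      exact (Measurable.ite (meas_sub k h.gd) (ih.comp (meas_sub k)) measurable_const).sup ihk

lemma Typed.Meas.ww (h : T.Meas) (L : ℕ) :
    Measurable (fun x : Tr × Tr => T.ww L x.1 x.2) := by
  unfold Typed.ww
  have h1 : Measurable (fun X : Tr => (T.ht L X : ℝ)) :=
    (measurable_from_top (f := fun n : ℕ => (n : ℝ))).comp (h.ht L)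
  exact measurable_const.add (((h1.comp measurable_snd).sub (h1.comp measurable_fst)).div_const _)

lemma Typed.Meas.ic (h : T.Meas) : Measurable (fun N : Tr => (T.ic N : ℝ)) := by
  have : (fun N : Tr => (T.ic N : ℝ)) =
      fun N : Tr => ∑ a ∈ range (N []), (fun X => if 0 < T.m X then (1 : ℝ) else 0) (sub N a) := by
    funext N
    unfold Typed.ic
    rw [← sum_filter, sum_const, nsmul_eq_mul, mul_one]
  rw [this]
  exact meas_sum (Measurable.ite h.pos measurable_const measurable_const)

lemma Typed.Meas.ic2 (h : T.Meas) : MeasurableSet {N : Tr | 2 ≤ T.ic N} := by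
  have : {N : Tr | 2 ≤ T.ic N} = {N : Tr | (2 : ℝ) ≤ (T.ic N : ℝ)} := by
    ext N; simp only [Set.mem_ofPred_eq]; norm_cast
  rw [this]
  exact measurableSet_le measurable_const h.ic

end

end Pool.Agent.W909.UG
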