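import Mathlib
import Pool.Agent.W909.UG.Meas

set_option autoImplicit false

/-!
The expectations of the local identities.
-/

namespace Pool.Agent.W909.UG

open MeasureTheory Finset Classical

section

variable {D : ℕ} {l : ℝ} {T : Typed D l} {p q : Measure ℕ} [IsProbabilityMeasure p]
  [IsProbabilityMeasure q] {mb : ℝ}

lemma meas_edge {F : Tr → Tr → ℝ} (hF : Measurable (Function.uncurry F)) :
    Measurable (fun N : Tr => ∑ a ∈ range (N []), F (del N a) (sub N a)) :=
  meas_root (fun k N => ∑ a ∈ range k, F (del N a) (sub N a)) fun k =>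
    Finset.measurable_fun_sum _ fun a _ => hF.comp ((meas_del a).prodMk (meas_sub a))

lemma meas_edge' {F : Tr → Tr → ℝ} (hF : Measurable (Function.uncurry F)) :
    Measurable (fun N : Tr => ∑ a ∈ range (N []), F (sub N a) (del N a)) :=
  meas_edge (F := fun x y => F y x) (hF.comp measurable_swap)

lemma integ_ae {f : Tr → ℝ} {μ : Measure Tr} [IsFiniteMeasure μ] (hf : Measurable f) (C : ℝ)
    (h : ∀ᵐ N ∂μ, |f N| ≤ C) : Integrable f μ :=
  (integrable_const C).mono' hf.aestronglyMeasurable (by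
    filter_upwards [h] with N hN
    rw [Real.norm_eq_abs]; exact hN)

lemma sum_le_D {N : Tr} (hN : Bdd D N) {g : ℕ → ℝ} (hg : ∀ a < N [], |g a| ≤ 1) :
    |∑ a ∈ range (N []), g a| ≤ D := by
  refine (abs_sum_le_sum_abs _ _).trans ?_
  calc ∑ a ∈ range (N []), |g a| ≤ ∑ a ∈ range (N []), (1 : ℝ) :=
        sum_le_sum fun a ha => hg a (mem_range.1 ha)
    _ = (N [] : ℝ) := by simp
    _ ≤ D := by exact_mod_cast hN []

lemma integ_edge (h : Laws D p q mb) {F : Tr → Tr → ℝ} (hF : Measurable (Function.uncurry F))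
    (hC : ∀ x y, |F x y| ≤ 1) :
    Integrable (fun N : Tr => ∑ a ∈ range (N []), F (del N a) (sub N a)) (GW p q) :=
  integ_ae (meas_edge hF) D (by
    filter_upwards [h.bdd] with N hN
    exact sum_le_D hN fun a _ => hC _ _)

lemma integ_edge' (h : Laws D p q mb) {F : Tr → Tr → ℝ} (hF : Measurable (Function.uncurry F))
    (hC : ∀ x y, |F x y| ≤ 1) :
    Integrable (fun N : Tr => ∑ a ∈ range (N []), F (sub N a) (del N a)) (GW p q) :=
  integ_ae (meas_edge' hF) D (by
    filter_upwards [h.bdd] with N hN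
    exact sum_le_D hN fun a _ => hC _ _)

/-- probability that the root carries mass -/
noncomputable def PS (T : Typed D l) (p q : Measure ℕ) : ℝ :=
  ∫ N, (if 0 < T.m N then (1 : ℝ) else 0) ∂(GW p q)

noncomputable def PI (T : Typed D l) (p q : Measure ℕ) : ℝ :=
  ∫ N, (if 2 ≤ T.ic N then (1 : ℝ) else 0) ∂(GW p q)

noncomputable def IC (T : Typed D l) (p q : Measure ℕ) : ℝ :=
  ∫ N, (if 2 ≤ T.ic N then (T.ic N : ℝ) else 0) ∂(GW p q)

noncomputable def ND (T : Typed D l) (p q : Measure ℕ) : ℝ :=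
  ∫ N, (if 0 < T.m N then (N [] : ℝ) else 0) ∂(GW p q)

noncomputable def I2 (T : Typed D l) (p q : Measure ℕ) : ℝ :=
  ∫ N, ∑ a ∈ range (N []), T.G2 (del N a) (sub N a) ∂(GW p q)

lemma Typed.ic_le {N : Tr} (T : Typed D l) (hN : Bdd D N) : (T.ic N : ℝ) ≤ D := by
  have h1 : T.ic N ≤ N [] := by
    unfold Typed.ic
    exact (card_filter_le _ _).trans (by simp)
  exact_mod_cast h1.trans (hN [])

lemma intPS (hT : T.Meas) : Integrable (fun N => (if 0 < T.m N then (1 : ℝ) else 0)) (GW p q) :=
  integ_ae (Measurable.ite hT.pos measurable_const measurable_const) 1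
    (Filter.Eventually.of_forall fun N => by split_ifs <;> simp)

lemma intPI (hT : T.Meas) : Integrable (fun N => (if 2 ≤ T.ic N then (1 : ℝ) else 0)) (GW p q) :=
  integ_ae (Measurable.ite hT.ic2 measurable_const measurable_const) 1
    (Filter.Eventually.of_forall fun N => by split_ifs <;> simp)

lemma intIC (h : Laws D p q mb) (hT : T.Meas) :
    Integrable (fun N => (if 2 ≤ T.ic N then (T.ic N : ℝ) else 0)) (GW p q) :=
  integ_ae (Measurable.ite hT.ic2 hT.ic measurable_const) D (by
    filter_upwards [h.bdd] with N hN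
    split_ifs
    · rw [abs_of_nonneg (Nat.cast_nonneg _)]; exact T.ic_le hN
    · simp)

lemma intND (h : Laws D p q mb) (hT : T.Meas) :
    Integrable (fun N => (if 0 < T.m N then (N [] : ℝ) else 0)) (GW p q) :=
  integ_ae (Measurable.ite hT.pos ((measurable_from_top (f := fun n : ℕ => (n : ℝ))).comp
    (measurable_pi_apply ([] : List ℕ))) measurable_const) D (by
    filter_upwards [h.bdd] with N hN
    split_ifs
    · rw [abs_of_nonneg (Nat.cast_nonneg _)]; exact_mod_cast hN []
    · simp)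

/-- the mean mass -/
lemma Qa (h : Laws D p q mb) (hT : T.Meas) :
    ∫ N, T.m N ∂(GW p q) = PS T p q - PI T p q - I2 T p q / 2 := by
  have e1 : ∫ N, T.m N ∂(GW p q) = ∫ N, ((if 0 < T.m N then (1 : ℝ) else 0) -
      (∑ a ∈ range (N []), T.F1 (del N a) (sub N a) +
        ∑ a ∈ range (N []), T.F2 (del N a) (sub N a))) ∂(GW p q) := by
    refine integral_congr_ae ?_
    filter_upwards [h.bdd] with N hN
    rw [← sum_add_distrib]
    exact T.P1 hN
  have iF1 := integ_edge h hT.F1 T.F1_le
  have iF2 := integ_edge h hT.F2 T.F2_le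
  have iF2' := integ_edge' h hT.F2 T.F2_le
  rw [e1, integral_sub (intPS hT) (by exact iF1.add iF2), integral_add iF1 iF2]
  have e2 : ∫ N, ∑ a ∈ range (N []), T.F1 (del N a) (sub N a) ∂(GW p q) = PI T p q := by
    rw [mtp_symm h T.F1 hT.F1 1 T.F1_le]
    refine integral_congr_ae ?_
    filter_upwards [h.bdd] with N hN
    exact T.P2 hN
  have e3 : 2 * ∫ N, ∑ a ∈ range (N []), T.F2 (del N a) (sub N a) ∂(GW p q) = I2 T p q := by
    rw [two_mul]
    nth_rewrite 2 [mtp_symm h T.F2 hT.F2 1 T.F2_le]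
    rw [← integral_add iF2 iF2']
    unfold I2
    refine integral_congr_ae (Filter.Eventually.of_forall fun N => ?_)
    simp only
    rw [← sum_add_distrib]
    exact sum_congr rfl fun a _ => T.F2_add _ _
  rw [e2]
  unfold PS
  linarith

lemma Qb (h : Laws D p q mb) (hT : T.Meas) :
    ND T p q = I2 T p q + IC T p q := by
  have iG1 := integ_edge h hT.G1 T.G1_le
  have iG2 := integ_edge h hT.G2 T.G2_le
  have e1 : ND T p q = ∫ N, (∑ a ∈ range (N []), T.G2 (del N a) (sub N a) +
      ∑ a ∈ range (N []), T.G1 (del N a) (sub N a)) ∂(GW p q) := by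
    refine integral_congr_ae ?_
    filter_upwards [h.bdd] with N hN
    exact T.P3 hN
  rw [e1, integral_add iG2 iG1, mtp_symm h T.G1 hT.G1 1 T.G1_le]
  unfold I2 IC
  congr 1
  refine integral_congr_ae ?_
  filter_upwards [h.bdd] with N hN
  exact T.P4 hN

lemma Qc (h : Laws D p q mb) (hT : T.Meas) {L : ℕ} (hL : 1 ≤ L)
    (hh : ∀ N, Bdd D N → 0 < T.m N → ∃ a < N [], T.gd (sub N a) ∧ T.ht L (sub N a) = L) :
    (1 - 1 / (2 * (L : ℝ))) * PS T p q ≤ I2 T p q / 2 := by
  obtain ⟨G, hG⟩ : ∃ G : Tr → Tr → ℝ, G = fun X Y => T.G2 X Y * T.ww L X Y := ⟨_, rfl⟩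
  have hGm : Measurable (Function.uncurry G) := by
    rw [hG]
    exact hT.G2.mul (hT.ww L)
  have hG1 : ∀ X Y, |G X Y| ≤ 1 := by
    intro X Y
    rw [hG, abs_mul]
    have h1 := T.G2_le X Y
    have h2 : |T.ww L X Y| ≤ 1 := by
      rw [abs_of_nonneg (T.ww_nonneg hL X Y)]; exact T.ww_le hL X Y
    calc |T.G2 X Y| * |T.ww L X Y| ≤ 1 * 1 := mul_le_mul h1 h2 (abs_nonneg _) zero_le_one
      _ = 1 := one_mul 1
  have iG := integ_edge h hGm hG1
  have iG' := integ_edge' h hGm hG1
  have e3 : 2 * ∫ N, ∑ a ∈ range (N []), G (del N a) (sub N a) ∂(GW p q) = I2 T p q := by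
    rw [two_mul]
    nth_rewrite 2 [mtp_symm h G hGm 1 hG1]
    rw [← integral_add iG iG']
    unfold I2
    refine integral_congr_ae (Filter.Eventually.of_forall fun N => ?_)
    simp only
    rw [← sum_add_distrib]
    refine sum_congr rfl fun a _ => ?_
    rw [hG]
    simp only
    rw [T.G2_comm (sub N a) (del N a), ← mul_add, T.ww_add, mul_one]
  rw [← e3, mul_div_cancel_left₀ _ (two_ne_zero)]
  unfold PS
  rw [← integral_const_mul]
  refine integral_mono_ae ((intPS hT).const_mul _) iG ?_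
  filter_upwards [h.bdd] with N hN
  by_cases hm : 0 < T.m N
  · simp only [if_pos hm, mul_one]
    have := T.P6 hL hN hm (hh N hN hm)
    rw [hG]; exact this
  · simp only [if_neg hm, mul_zero]
    refine sum_nonneg fun a _ => ?_
    rw [hG]
    refine mul_nonneg ?_ (T.ww_nonneg hL _ _)
    unfold Typed.G2; split_ifs <;> norm_num

/-- the sum over the neighbours in the flow inequality -/
noncomputable def Typed.g3 (T : Typed D l) (X Y : Tr) : ℝ :=
  if 0 < T.m Y ∧ ¬ T.BB Y ∧ T.B0 X then 1 else 0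

lemma Typed.Meas.g3 (h : T.Meas) : Measurable (Function.uncurry T.g3) := by
  unfold Typed.g3 Function.uncurry
  exact Measurable.ite ((measurable_snd h.pos).inter
    ((measurable_snd h.BB.compl).inter (measurable_fst h.B0))) measurable_const measurable_const

lemma Typed.g3_le (X Y : Tr) : |T.g3 X Y| ≤ 1 := by
  unfold Typed.g3; split_ifs <;> simp

lemma Qd (h : Laws D p q mb) (hT : T.Meas) :
    ∫ N, ∑ a ∈ range (N []), T.g3 (del N a) (sub N a) ∂(GW p q) ≤
      3 * (ND T p q - 2 * PS T p q) := by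
  have ig := integ_edge h hT.g3 T.g3_le
  have iff1 := integ_edge h hT.ff T.ff_le
  have iff2 := integ_edge' h hT.ff T.ff_le
  have i1 := intND (T := T) h hT
  have i2 := intPS (T := T) (p := p) (q := q) hT
  have e : 3 * (ND T p q - 2 * PS T p q) = ∫ N, (3 * ((if 0 < T.m N then (N [] : ℝ) else 0) -
      2 * (if 0 < T.m N then (1 : ℝ) else 0))) ∂(GW p q) := by
    rw [integral_const_mul, integral_sub i1 (i2.const_mul 2), integral_const_mul]
    rfl
  have e0 : ∫ N, (∑ a ∈ range (N []), T.ff (del N a) (sub N a) -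
      ∑ a ∈ range (N []), T.ff (sub N a) (del N a)) ∂(GW p q) = 0 := by
    rw [integral_sub iff1 iff2, mtp_symm h T.ff hT.ff 1 T.ff_le, sub_self]
  have i3 : Integrable (fun N : Tr => 3 * ((if 0 < T.m N then (N [] : ℝ) else 0) -
      2 * (if 0 < T.m N then (1 : ℝ) else 0))) (GW p q) := (i1.sub (i2.const_mul 2)).const_mul 3
  have key : ∫ N, (∑ a ∈ range (N []), T.g3 (del N a) (sub N a) -
      3 * ((if 0 < T.m N then (N [] : ℝ) else 0) -
      2 * (if 0 < T.m N then (1 : ℝ) else 0))) ∂(GW p q) ≤ 0 := by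
    refine le_trans ?_ (le_of_eq e0)
    refine integral_mono_ae (ig.sub i3) (iff1.sub iff2) ?_
    filter_upwards [h.bdd, h.two_le] with N hN h2
    have h7 := T.P7 hN h2
    refine le_trans (le_of_eq ?_) h7
    simp only [Typed.g3]
    congr 1
    by_cases hm : 0 < T.m N
    · simp only [if_pos hm]; ring
    · simp only [if_neg hm]; ring
  rw [integral_sub ig i3, ← e] at key
  linarith

/-! probabilities -/

lemma real_rest (a : ℕ) {A : Set Tr} {B : Set Tr} (hA : MeasurableSet A) (hB : MeasurableSet B)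
    (h0 : ∀ N y, setsub a N y ∈ B ↔ N ∈ B) :
    (GW p q).real {N | sub N a ∈ A ∧ N ∈ B} = (GW q q).real A * (GW p q).real B := by
  simp only [Measure.real]
  rw [GW_sub_rest a hA hB h0, ENNReal.toReal_mul]

lemma real_sub (a : ℕ) {A : Set Tr} (hA : MeasurableSet A) :
    (GW p q).real {N | sub N a ∈ A} = (GW q q).real A := by
  simp only [Measure.real]
  rw [GW_sub_apply a hA]

lemma real_two {a b : ℕ} (hab : b ≠ a) {A B : Set Tr} (hA : MeasurableSet A)
    (hB : MeasurableSet B) :
    (GW p q).real {N | sub N a ∈ A ∧ sub N b ∈ B} = (GW q q).real A * (GW q q).real B := by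
  have := real_rest (p := p) (q := q) a hA (B := {N | sub N b ∈ B}) (meas_sub b hB)
    (fun N y => by simp only [Set.mem_ofPred_eq]; rw [sub_setsub_ne hab])
  simp only [Set.mem_ofPred_eq] at this
  rw [this, real_sub b hB]

lemma real_three {a b c : ℕ} (hab : b ≠ a) (hac : c ≠ a) (hbc : c ≠ b) {A : Set Tr}
    (hA : MeasurableSet A) :
    (GW p q).real {N | sub N a ∈ A ∧ sub N b ∈ A ∧ sub N c ∈ A} = ((GW q q).real A) ^ 3 := by
  have := real_rest (p := p) (q := q) a hA (B := {N | sub N b ∈ A ∧ sub N c ∈ A})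
    ((meas_sub b hA).inter (meas_sub c hA))
    (fun N y => by simp only [Set.mem_ofPred_eq]; rw [sub_setsub_ne hab, sub_setsub_ne hac])
  simp only [Set.mem_ofPred_eq] at this
  rw [this, real_two hbc hA hA]
  ring

/-- probability of positive mass for the Galton-Watson tree -/
noncomputable def ph (T : Typed D l) (q : Measure ℕ) : ℝ := (GW q q).real {N | 0 < T.m N}

lemma ph_nonneg : 0 ≤ ph T q := measureReal_nonneg

/-- lower bound for the probability of two children with positive mass -/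
lemma Qe (h : Laws D p q mb) (hT : T.Meas) : (ph T q) ^ 2 ≤ PI T p q := by
  have e1 := real_two (p := p) (q := q) (a := 0) (b := 1) one_ne_zero hT.pos hT.pos
  simp only [Set.mem_ofPred_eq] at e1
  have hm : MeasurableSet {N : Tr | 0 < T.m (sub N 0) ∧ 0 < T.m (sub N 1)} :=
    (meas_sub 0 hT.pos).inter (meas_sub 1 hT.pos)
  unfold ph
  rw [sq, ← e1]
  unfold PI
  rw [← integral_indicator_one hm]
  refine integral_mono_ae ((integrable_const (1 : ℝ)).indicator hm) (intPI hT) ?_
  filter_upwards [h.two_le] with N h2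
  by_cases hN : N ∈ {N : Tr | 0 < T.m (sub N 0) ∧ 0 < T.m (sub N 1)}
  · rw [Set.indicator_of_mem hN]
    have : 2 ≤ T.ic N := by
      rw [← T.two_le_ic (a := 0) (by omega) hN.1, T.B0_del (by omega)]
      exact ⟨1, by omega, one_ne_zero, hN.2⟩
    simp [this]
  · rw [Set.indicator_of_notMem hN]
    split_ifs <;> simp

lemma Qf (h : Laws D p q mb) (hT : T.Meas) :
    (GW q q).real {N | 0 < T.m N ∧ ¬ T.BB N} * ph T q ≤
      ∫ N, ∑ a ∈ range (N []), T.g3 (del N a) (sub N a) ∂(GW p q) := by
  have hA : MeasurableSet {N : Tr | 0 < T.m N ∧ ¬ T.BB N} := hT.pos.inter hT.BB.compl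
  have e1 := real_two (p := p) (q := q) (a := 0) (b := 1) one_ne_zero hA hT.pos
  simp only [Set.mem_ofPred_eq] at e1
  have hm : MeasurableSet {N : Tr | (0 < T.m (sub N 0) ∧ ¬ T.BB (sub N 0)) ∧ 0 < T.m (sub N 1)} :=
    (meas_sub 0 hA).inter (meas_sub 1 hT.pos)
  unfold ph
  rw [← e1, ← integral_indicator_one hm]
  refine integral_mono_ae ((integrable_const (1 : ℝ)).indicator hm)
    (integ_edge h hT.g3 T.g3_le) ?_
  filter_upwards [h.two_le] with N h2
  have hnn : ∀ a ∈ range (N []), 0 ≤ T.g3 (del N a) (sub N a) := by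
    intro a _; unfold Typed.g3; split_ifs <;> norm_num
  by_cases hN : N ∈ {N : Tr | (0 < T.m (sub N 0) ∧ ¬ T.BB (sub N 0)) ∧ 0 < T.m (sub N 1)}
  · rw [Set.indicator_of_mem hN]
    have h3 := single_le_sum hnn (mem_range.2 (show 0 < N [] by omega))
    refine le_trans (le_of_eq ?_) h3
    unfold Typed.g3
    rw [if_pos]
    · rfl
    · refine ⟨hN.1.1, hN.1.2, ?_⟩
      rw [T.B0_del (by omega)]
      exact ⟨1, by omega, one_ne_zero, hN.2⟩
  · rw [Set.indicator_of_notMem hN]
    exact sum_nonneg hnn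

/-- upper bound for the excess of the number of children with positive mass -/
lemma Qg (h : Laws D p q mb) (hT : T.Meas) :
    IC T p q - 2 * PI T p q ≤ (D : ℝ) ^ 4 * (ph T q) ^ 3 := by
  have hA := hT.pos
  obtain ⟨S, hS⟩ : ∃ S : Finset (ℕ × ℕ × ℕ), S = ((range D) ×ˢ ((range D) ×ˢ (range D))).filter
    (fun x => x.2.1 ≠ x.1 ∧ x.2.2 ≠ x.1 ∧ x.2.2 ≠ x.2.1) := ⟨_, rfl⟩
  obtain ⟨ev, hev⟩ : ∃ ev : ℕ × ℕ × ℕ → Set Tr, ev = fun x =>
    {N : Tr | 0 < T.m (sub N x.1) ∧ 0 < T.m (sub N x.2.1) ∧ 0 < T.m (sub N x.2.2)} := ⟨_, rfl⟩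
  have hevm : ∀ x, MeasurableSet (ev x) := by
    intro x; rw [hev]
    exact (meas_sub _ hA).inter ((meas_sub _ hA).inter (meas_sub _ hA))
  have hcard : (S.card : ℝ) ≤ (D : ℝ) ^ 3 := by
    have : S.card ≤ D ^ 3 := by
      rw [hS]
      refine (card_filter_le _ _).trans ?_
      rw [card_product, card_product, card_range]
      apply le_of_eq; ring
    exact_mod_cast this
  have e1 : IC T p q - 2 * PI T p q = ∫ N, ((if 2 ≤ T.ic N then (T.ic N : ℝ) else 0) -
      2 * (if 2 ≤ T.ic N then (1 : ℝ) else 0)) ∂(GW p q) := by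
    rw [integral_sub (intIC h hT) ((intPI hT).const_mul 2), integral_const_mul]
    rfl
  have e2 : IC T p q - 2 * PI T p q ≤
      ∫ N, ∑ x ∈ S, (D : ℝ) * (ev x).indicator (fun _ => (1 : ℝ)) N ∂(GW p q) := by
    rw [e1]
    refine integral_mono_ae ((intIC h hT).sub ((intPI hT).const_mul 2)) ?_ ?_
    · refine integrable_finsetSum _ fun x _ => ?_
      exact ((integrable_const (1 : ℝ)).indicator (hevm x)).const_mul _
    · filter_upwards [h.bdd] with N hN
      have hnn : ∀ x ∈ S, 0 ≤ (D : ℝ) * (ev x).indicator (fun _ => (1 : ℝ)) N := by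
        intro x _
        refine mul_nonneg (Nat.cast_nonneg _) ?_
        exact Set.indicator_nonneg (fun _ _ => zero_le_one) _
      rcases Nat.lt_or_ge 2 (T.ic N) with h3 | h3
      · obtain ⟨a, b, c, ha, hb, hc, hab, hac, hbc⟩ := two_lt_card_iff.1 h3
        simp only [mem_filter, mem_range] at ha hb hc
        have hxS : (a, b, c) ∈ S := by
          rw [hS]
          simp only [mem_filter, mem_product, mem_range]
          exact ⟨⟨ha.1.trans_le (hN []), hb.1.trans_le (hN []), hc.1.trans_le (hN [])⟩,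
            Ne.symm hab, Ne.symm hac, Ne.symm hbc⟩
        have h4 := single_le_sum hnn hxS
        have h5 : N ∈ ev (a, b, c) := by rw [hev]; exact ⟨ha.2, hb.2, hc.2⟩
        rw [Set.indicator_of_mem h5, mul_one] at h4
        refine le_trans ?_ h4
        have h6 : 2 ≤ T.ic N := by omega
        simp only [if_pos h6]
        have := T.ic_le hN
        linarith
      · refine le_trans ?_ (sum_nonneg hnn)
        by_cases h6 : 2 ≤ T.ic N
        · have h7 : T.ic N = 2 := le_antisymm h3 h6
          simp only [h7]; norm_num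
        · simp only [if_neg h6]; norm_num
  refine e2.trans ?_
  rw [integral_finsetSum]
  · have e3 : ∀ x ∈ S, ∫ N, (D : ℝ) * (ev x).indicator (fun _ => (1 : ℝ)) N ∂(GW p q) =
        D * (ph T q) ^ 3 := by
      intro x hx
      rw [integral_const_mul]
      congr 1
      have := integral_indicator_one (μ := GW p q) (hevm x)
      rw [show (fun N => (ev x).indicator (fun _ => (1 : ℝ)) N) = (ev x).indicator 1 from rfl, this]
      rw [hS] at hx
      simp only [mem_filter] at hx
      have := real_three (p := p) (q := q) hx.2.1 hx.2.2.1 hx.2.2.2 hA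
      simp only [Set.mem_ofPred_eq] at this
      rw [hev]; exact this
    rw [sum_congr rfl e3, sum_const, nsmul_eq_mul]
    have hp3 : 0 ≤ (ph T q) ^ 3 := pow_nonneg ph_nonneg 3
    calc (S.card : ℝ) * (D * (ph T q) ^ 3) ≤ (D : ℝ) ^ 3 * (D * (ph T q) ^ 3) := by gcongr
      _ = (D : ℝ) ^ 4 * (ph T q) ^ 3 := by ring
  · intro x _
    exact ((integrable_const (1 : ℝ)).indicator (hevm x)).const_mul _

/-- bare paths are exponentially rare -/
lemma real_Bn (hT : T.Meas) (n : ℕ) :
    (GW q q).real {N | T.Bn n N} = (q.real {1}) ^ n * (GW q q).real {N | T.B0 N} := by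
  induction n with
  | zero => simp [Typed.Bn]
  | succ n ih =>
    have hB : MeasurableSet {N : Tr | N [] = 1} :=
      (measurable_pi_apply _) (measurableSet_singleton 1)
    have e1 := real_rest (p := q) (q := q) 0 (A := {N | T.Bn n N}) (B := {N | N [] = 1})
      (hT.Bn n) hB (fun N y => by simp)
    have e2 : {N : Tr | T.Bn (n + 1) N} = {N | sub N 0 ∈ {N | T.Bn n N} ∧ N ∈ {N : Tr | N [] = 1}} := by
      ext N
      simp only [Set.mem_ofPred_eq, Typed.Bn]
      tauto
    rw [e2, e1, ih]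
    have e3 : (GW q q).real {N : Tr | N [] = 1} = q.real {1} := by
      have h2 : (GW q q).map (fun N : Tr => N []) = q := by
        have := Measure.infinitePi_map_eval (law q q) []
        rw [GW, this]; rfl
      simp only [Measure.real]
      conv_rhs => rw [← h2]
      rw [Measure.map_apply (measurable_pi_apply _) (measurableSet_singleton 1)]
      rfl
    rw [e3]
    ring

lemma real_B0 (h : Laws D p q mb) (hT : T.Meas) :
    (GW q q).real {N | T.B0 N} ≤ D * ph T q := by
  have hb : ∀ᵐ N ∂(GW q q), Bdd D N := by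
    unfold Bdd
    rw [ae_all_iff]
    intro w
    have h1 := h.law_ae (0 :: w)
    have h2 : (GW q q).map (fun N : Tr => N w) = law q q w := Measure.infinitePi_map_eval _ w
    have h3 : law q q w = law p q (0 :: w) := by simp [law]
    rw [← h3, ← h2] at h1
    exact ae_of_ae_map (measurable_pi_apply w).aemeasurable h1
  have e1 : (GW q q).real {N | T.B0 N} ≤ (GW q q).real (⋃ a ∈ range D, {N | 0 < T.m (sub N a)}) := by
    simp only [Measure.real]
    refine ENNReal.toReal_mono (measure_ne_top _ _) ?_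
    refine measure_mono_ae ?_
    filter_upwards [hb] with N hN hB
    obtain ⟨a, ha, h2⟩ := hB
    exact Set.mem_iUnion₂.2 ⟨a, mem_range.2 (ha.trans_le (hN [])), h2⟩
  refine e1.trans ((measureReal_biUnion_finset_le _ _).trans ?_)
  have e2 : ∀ a ∈ range D, (GW q q).real {N | 0 < T.m (sub N a)} = ph T q := by
    intro a _
    have := real_sub (p := q) (q := q) a hT.pos
    simp only [Set.mem_ofPred_eq] at this
    exact this
  rw [sum_congr rfl e2, sum_const, card_range, nsmul_eq_mul]

end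

end Pool.Agent.W909.UG
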