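import Mathlib
import Pool.Agent.W909.UG.Count

set_option autoImplicit false

/-!
No atoms outside a finite set.
-/

namespace Pool.Agent.W909.UG

open MeasureTheory Finset Classical

section

variable {D : ℕ} {l : ℝ} {T : Typed D l} {p q : Measure ℕ} [IsProbabilityMeasure p]
  [IsProbabilityMeasure q] {mb : ℝ}

lemma m_int_nonneg (h : Laws D p q mb) : 0 ≤ ∫ N, T.m N ∂(GW p q) := by
  refine integral_nonneg_of_ae ?_
  filter_upwards [h.bdd] with N hN
  exact (T.hm N hN).1

lemma two_PS_le (h : Laws D p q mb) (hT : T.Meas) : 2 * PS T p q ≤ ND T p q := by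
  unfold PS ND
  rw [← integral_const_mul]
  refine integral_mono_ae ((intPS hT).const_mul 2) (intND h hT) ?_
  filter_upwards [h.two_le] with N h2
  have h2' : (2 : ℝ) ≤ N [] := by exact_mod_cast h2
  by_cases hm : 0 < T.m N
  · simp only [if_pos hm]; linarith
  · simp only [if_neg hm]; linarith

lemma PS_le (hT : T.Meas) : PS T p q ≤ 1 := by
  unfold PS
  calc ∫ N, (if 0 < T.m N then (1 : ℝ) else 0) ∂(GW p q) ≤ ∫ _N : Tr, (1 : ℝ) ∂(GW p q) :=
        integral_mono (intPS hT) (integrable_const _) (fun N => by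
          simp only; split_ifs <;> norm_num)
    _ = 1 := by simp

/-- twice the mean mass -/
lemma two_m (h : Laws D p q mb) (hT : T.Meas) :
    2 * ∫ N, T.m N ∂(GW p q) = (IC T p q - 2 * PI T p q) - (ND T p q - 2 * PS T p q) := by
  have h1 := Qa h hT
  have h2 := Qb h hT
  linarith

/-- long bare paths -/
def Typed.CC (T : Typed D l) (j : ℕ) (X : Tr) : Prop := ∃ k, T.Bn (j + k) X

lemma real_CC_succ (hT : T.Meas) (j : ℕ) :
    (GW q q).real {N | T.CC (j + 1) N} = q.real {1} * (GW q q).real {N | T.CC j N} := by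
  have hB : MeasurableSet {N : Tr | N [] = 1} :=
    (measurable_pi_apply _) (measurableSet_singleton 1)
  have hC : MeasurableSet {N : Tr | T.CC j N} := by
    have : {N : Tr | T.CC j N} = ⋃ k : ℕ, {N : Tr | T.Bn (j + k) N} := by
      ext X
      simp only [Set.mem_iUnion]
      rfl
    rw [this]
    exact MeasurableSet.iUnion fun k => hT.Bn _
  have e1 := real_rest (p := q) (q := q) 0 (A := {N | T.CC j N}) (B := {N | N [] = 1})
    hC hB (fun N y => by simp)
  have e2 : {N : Tr | T.CC (j + 1) N} =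
      {N | sub N 0 ∈ {N | T.CC j N} ∧ N ∈ {N : Tr | N [] = 1}} := by
    ext N
    simp only [Set.mem_ofPred_eq, Typed.CC]
    constructor
    · rintro ⟨k, hk⟩
      rw [show j + 1 + k = (j + k) + 1 by ring] at hk
      exact ⟨⟨k, hk.2⟩, hk.1⟩
    · rintro ⟨⟨k, hk⟩, h1⟩
      refine ⟨k, ?_⟩
      rw [show j + 1 + k = (j + k) + 1 by ring]
      exact ⟨h1, hk⟩
  have e3 : (GW q q).real {N : Tr | N [] = 1} = q.real {1} := by
    have h2 : (GW q q).map (fun N : Tr => N []) = q := by
      have := Measure.infinitePi_map_eval (law q q) []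
      rw [GW, this]; rfl
    simp only [Measure.real]
    conv_rhs => rw [← h2]
    rw [Measure.map_apply (measurable_pi_apply _) (measurableSet_singleton 1)]
    rfl
  rw [e2, e1, e3]
  ring

lemma real_CC (hT : T.Meas) (j : ℕ) :
    (GW q q).real {N | T.CC j N} = q.real {1} ^ j * (GW q q).real {N | T.CC 0 N} := by
  induction j with
  | zero => simp
  | succ j ih => rw [real_CC_succ hT, ih]; ring

lemma real_BB (h : Laws D p q mb) (hT : T.Meas) (ha : q.real {1} < 1) :
    (GW q q).real {N | T.CC 0 N} ≤ D * ph T q / (1 - q.real {1}) := by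
  rw [le_div_iff₀ (by linarith)]
  have h1 : (GW q q).real {N | T.CC 0 N} ≤
      (GW q q).real {N | T.B0 N} + (GW q q).real {N | T.CC 1 N} := by
    refine le_trans (measureReal_mono ?_) (measureReal_union_le _ _)
    rintro N ⟨k, hk⟩
    rcases k with _ | k
    · exact Or.inl hk
    · refine Or.inr ⟨k, ?_⟩
      rw [show 1 + k = 0 + (k + 1) by ring]; exact hk
  have h2 := real_CC_succ (q := q) hT 0
  rw [zero_add] at h2
  have h3 := real_B0 h hT
  rw [h2] at h1
  linarith

/-- no atom in the case of a non-trivial offspring law, for large heights -/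
lemma no_atom (h : Laws D p q mb) (hT : T.Meas) (ha : q.real {1} < 1) {L : ℕ} (hL : 1 ≤ L)
    (hL1 : D * (q.real {1}) ^ (L + 1) / (1 - q.real {1}) ≤ 1 / 4)
    (hL2 : 1 / (2 * (L : ℝ)) ≤ (1 / (12 * (D : ℝ) ^ 4 + 12)) ^ 2)
    (hh : ∀ N, Bdd D N → 0 < T.m N → ∃ a < N [], T.gd (sub N a) ∧ T.ht L (sub N a) = L) :
    ∫ N, T.m N ∂(GW p q) = 0 := by
  have hnn := m_int_nonneg (T := T) h
  have h2m := two_m h hT
  have hND := two_PS_le h hT
  have hLpos : (0 : ℝ) < L := by exact_mod_cast hL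
  -- it suffices to show that ph = 0
  have hg := Qg h hT
  have hph := ph_nonneg (T := T) (q := q)
  rcases hph.lt_or_eq with hpos | h0
  swap
  · rw [← h0] at hg
    simp only [ne_eq, OfNat.ofNat_ne_zero, not_false_eq_true, zero_pow, mul_zero] at hg
    linarith
  exfalso
  -- bound on ph
  have hPI : PI T p q ≤ 1 / (2 * (L : ℝ)) := by
    have h1 := Qa h hT
    have h2 := Qc h hT hL hh
    have h3 := PS_le (p := p) (q := q) hT
    have h4 : PI T p q ≤ 1 / (2 * (L : ℝ)) * PS T p q := by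
      have : (1 - 1 / (2 * (L : ℝ))) * PS T p q = PS T p q - 1 / (2 * (L : ℝ)) * PS T p q := by
        ring
      linarith
    refine h4.trans ?_
    calc 1 / (2 * (L : ℝ)) * PS T p q ≤ 1 / (2 * (L : ℝ)) * 1 := by gcongr
      _ = _ := mul_one _
  have hE := Qe h hT
  have hsq : (ph T q) ^ 2 ≤ (1 / (12 * (D : ℝ) ^ 4 + 12)) ^ 2 := hE.trans (hPI.trans hL2)
  have hD4 : 0 ≤ (D : ℝ) ^ 4 := by positivity
  have hph1 : ph T q ≤ 1 / (12 * (D : ℝ) ^ 4 + 12) :=
    le_of_sq_le_sq hsq (by positivity)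
  have hph2 : 3 * (D : ℝ) ^ 4 * ph T q ≤ 1 / 4 := by
    calc 3 * (D : ℝ) ^ 4 * ph T q ≤ 3 * (D : ℝ) ^ 4 * (1 / (12 * (D : ℝ) ^ 4 + 12)) := by gcongr
      _ ≤ 1 / 4 := by
        rw [mul_one_div, div_le_iff₀ (by positivity)]
        linarith
  -- non bare part
  have hf := Qf h hT
  have hd := Qd h hT
  have hq : (GW q q).real {N | 0 < T.m N ∧ ¬ T.BB N} ≤ 3 * (D : ℝ) ^ 4 * (ph T q) ^ 2 := by
    have h1 : (GW q q).real {N | 0 < T.m N ∧ ¬ T.BB N} * ph T q ≤
        (3 * (D : ℝ) ^ 4 * (ph T q) ^ 2) * ph T q := by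
      calc _ ≤ 3 * (ND T p q - 2 * PS T p q) := hf.trans hd
        _ ≤ 3 * (IC T p q - 2 * PI T p q) := by linarith
        _ ≤ 3 * ((D : ℝ) ^ 4 * (ph T q) ^ 3) := by linarith
        _ = _ := by ring
    exact le_of_mul_le_mul_right h1 hpos
  -- bare part
  have hbd : ∀ᵐ N ∂(GW q q), Bdd D N := by
    unfold Bdd
    rw [ae_all_iff]
    intro w
    have h1 := h.law_ae (0 :: w)
    have h2 : (GW q q).map (fun N : Tr => N w) = law q q w := Measure.infinitePi_map_eval _ w
    have h3 : law q q w = law p q (0 :: w) := by simp [law]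
    rw [← h3, ← h2] at h1
    exact ae_of_ae_map (measurable_pi_apply w).aemeasurable h1
  have hb : ph T q ≤ (GW q q).real {N | 0 < T.m N ∧ ¬ T.BB N} +
      (GW q q).real {N | T.CC (L + 1) N} := by
    refine le_trans ?_ (measureReal_union_le _ _)
    unfold ph
    simp only [Measure.real]
    refine ENNReal.toReal_mono (measure_ne_top _ _) ?_
    refine measure_mono_ae ?_
    filter_upwards [hbd] with N hN hm
    have hm' : 0 < T.m N := hm
    by_cases hB : T.BB N
    · right
      obtain ⟨n, hn⟩ := hB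
      have h1 := T.Bn_long hN hm' (hh N hN hm') hn
      exact ⟨n - (L + 1), by rw [Nat.add_sub_cancel' h1]; exact hn⟩
    · left
      exact ⟨hm', hB⟩
  have hC : (GW q q).real {N | T.CC (L + 1) N} ≤ 1 / 4 * ph T q := by
    rw [real_CC hT]
    have h1 := real_BB h hT ha
    have h2 : 0 ≤ q.real {1} ^ (L + 1) := by positivity
    calc q.real {1} ^ (L + 1) * (GW q q).real {N | T.CC 0 N}
        ≤ q.real {1} ^ (L + 1) * (D * ph T q / (1 - q.real {1})) := by gcongr
      _ = (D * (q.real {1}) ^ (L + 1) / (1 - q.real {1})) * ph T q := by ring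
      _ ≤ 1 / 4 * ph T q := by gcongr
  have hfin : ph T q ≤ 1 / 2 * ph T q := by
    calc ph T q ≤ 3 * (D : ℝ) ^ 4 * (ph T q) ^ 2 + 1 / 4 * ph T q := by linarith
      _ = (3 * (D : ℝ) ^ 4 * ph T q) * ph T q + 1 / 4 * ph T q := by ring
      _ ≤ 1 / 4 * ph T q + 1 / 4 * ph T q := by gcongr
      _ = _ := by ring
  linarith

/-- the degenerate case: the bi-infinite path -/
lemma no_atom_path (h : Laws D p q mb) (hT : T.Meas) (ha : q.real {1} = 1) :
    ∫ N, T.m N ∂(GW p q) = 0 := by
  have hnn := m_int_nonneg (T := T) h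
  have h2m := two_m h hT
  have hND := two_PS_le h hT
  have hq1 : q {1} = 1 := by
    have : (q {1}).toReal = 1 := ha
    rw [← ENNReal.toReal_one] at this
    exact (ENNReal.toReal_eq_toReal_iff' (measure_ne_top _ _) ENNReal.one_ne_top).1 this
  have hq0 : ∀ k, 2 ≤ k → q {k} = 0 := by
    intro k hk
    have h1 : q ({1}ᶜ) = 0 := (prob_compl_eq_zero_iff (measurableSet_singleton 1)).2 hq1
    refine measure_mono_null ?_ h1
    intro x hx
    simp only [Set.mem_singleton_iff] at hx
    simp only [Set.mem_compl_iff, Set.mem_singleton_iff]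
    omega
  have hp0 : ∀ k, 3 ≤ k → p {k} = 0 := by
    intro k hk
    obtain ⟨k, rfl⟩ : ∃ k', k = k' + 1 := ⟨k - 1, by omega⟩
    have h1 := h.hq k
    have h2 : q.real {k} = 0 := by simp [Measure.real, hq0 k (by omega)]
    rw [h2, mul_zero] at h1
    have h3 : p.real {k + 1} = 0 := by
      rcases mul_eq_zero.1 h1 with h3 | h3
      · exfalso
        have : (0 : ℝ) ≤ k := Nat.cast_nonneg k
        linarith
      · exact h3
    exact (measureReal_eq_zero_iff).1 h3
  have hroot : ∀ᵐ N ∂(GW p q), N [] ≤ 2 := by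
    have h2 : (GW p q).map (fun N : Tr => N []) = p := by
      have := Measure.infinitePi_map_eval (law p q) []
      rw [GW, this]; rfl
    have h1 : ∀ᵐ k ∂p, k ≤ 2 := by
      rw [ae_iff]
      have h3 : {k : ℕ | ¬ k ≤ 2} = ⋃ k ∈ Set.Ici 3, {k} := by
        ext x; simp; omega
      rw [h3]
      exact (measure_biUnion_null_iff (Set.to_countable _)).2 fun k hk => hp0 k hk
    rw [← h2] at h1
    exact ae_of_ae_map (measurable_pi_apply _).aemeasurable h1
  have hle : IC T p q - 2 * PI T p q ≤ 0 := by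
    have e1 : IC T p q - 2 * PI T p q = ∫ N, ((if 2 ≤ T.ic N then (T.ic N : ℝ) else 0) -
        2 * (if 2 ≤ T.ic N then (1 : ℝ) else 0)) ∂(GW p q) := by
      rw [integral_sub (intIC h hT) ((intPI hT).const_mul 2), integral_const_mul]
      rfl
    rw [e1]
    refine integral_nonpos_of_ae ?_
    filter_upwards [hroot] with N hN
    have h3 : T.ic N ≤ 2 := by
      unfold Typed.ic
      exact (card_filter_le _ _).trans (by simpa using hN)
    have h3' : (T.ic N : ℝ) ≤ 2 := by exact_mod_cast h3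
    simp only [Pi.zero_apply]
    split_ifs <;> linarith
  linarith

/-- outside a finite set of points there is no atom -/
theorem atoms_zero (hF : TaskF) (h : Laws D p q mb) :
    ∃ E : Set ℝ, E.Finite ∧ ∀ l : ℝ, l ∉ E → ∀ T : Typed D l, T.Meas →
      ∫ N, T.m N ∂(GW p q) = 0 := by
  have ha : q.real {1} ≤ 1 := measureReal_le_one
  have ha0 : 0 ≤ q.real {1} := measureReal_nonneg
  rcases ha.lt_or_eq with ha1 | ha1
  · -- choose L
    have t1 : Filter.Tendsto (fun L : ℕ => D * (q.real {1}) ^ (L + 1) / (1 - q.real {1}))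
        Filter.atTop (nhds (D * 0 / (1 - q.real {1}))) := by
      refine (Filter.Tendsto.const_mul _ ?_).div_const _
      exact (tendsto_pow_atTop_nhds_zero_of_lt_one ha0 ha1).comp (Filter.tendsto_add_atTop_nat 1)
    rw [mul_zero, zero_div] at t1
    have t2 : Filter.Tendsto (fun L : ℕ => 1 / (2 * (L : ℝ))) Filter.atTop (nhds 0) := by
      refine Filter.Tendsto.div_atTop tendsto_const_nhds ?_
      exact (tendsto_natCast_atTop_atTop).const_mul_atTop (by norm_num)
    have e1 := t1.eventually (ge_mem_nhds (show (0 : ℝ) < 1 / 4 by norm_num))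
    have e2 := t2.eventually (ge_mem_nhds
      (show (0 : ℝ) < (1 / (12 * (D : ℝ) ^ 4 + 12)) ^ 2 by positivity))
    obtain ⟨L, hL1, hL2, hL⟩ := (e1.and (e2.and (Filter.eventually_ge_atTop 1))).exists
    obtain ⟨E, hE, hE2⟩ := hF D L
    exact ⟨E, hE, fun l hl T hT => no_atom h hT ha1 hL hL1 hL2 (hE2 l hl T)⟩
  · exact ⟨∅, Set.finite_empty, fun l _ T hT => no_atom_path h hT ha1⟩

end

end Pool.Agent.W909.UG
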