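import Mathlib
import Pool.Agent.W909.UG.Zero

set_option autoImplicit false

/-!
Assembly: the family of spectral measures, the types at a point and the finiteness of the set of
atoms.
-/

namespace Pool.Agent.W909.UG

open MeasureTheory ProbabilityTheory Finset Classical

lemma norm_dl : ‖dl‖ = 1 := by
  unfold dl
  rw [lp.norm_single (by norm_num)]
  simp

lemma inner_dl (f : H2) : inner ℂ dl f = (f : List ℕ → ℂ) [] := by
  unfold dl
  rw [lp.inner_single_left]
  simp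

/-- existence of the spectral measures -/
theorem exists_spec (h1 : TaskA1) (h2 : TaskA2) (h3 : TaskA3) (h4 : TaskA4) (D : ℕ) :
    ∃ μ : Tr → Measure ℝ, IsSpec D μ := by
  choose! A hA using h1 D
  have hsp : ∀ N : Tr, Bdd D N → ∃ μ : Measure ℝ, IsProbabilityMeasure μ ∧
      μ (Set.Icc (-‖A N‖) ‖A N‖)ᶜ = 0 ∧
      (∀ k : ℕ, ((∫ x : ℝ, x ^ k ∂μ : ℝ) : ℂ) = inner ℂ dl (((A N) ^ k) dl)) ∧
      (∀ z : ℂ, 0 < z.im → ∀ ψ : H2, z • ψ - (A N) ψ = dl → st μ z = inner ℂ dl ψ) :=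
    fun N hN => (h4 H2 (A N) (hA N hN).1 dl norm_dl).2
  have hres : ∀ N : Tr, Bdd D N → ∀ z : ℂ, 0 < z.im → ∃ ψ : H2, z • ψ - (A N) ψ = dl :=
    fun N hN => (h4 H2 (A N) (hA N hN).1 dl norm_dl).1
  choose! μ hμ using hsp
  refine ⟨μ, fun N hN => (hμ N hN).1, fun N hN => ?_, fun N hN k => ?_, fun N hN z hz => ?_⟩
  · refine measure_mono_null ?_ (hμ N hN).2.1
    refine Set.compl_subset_compl.2 (Set.Icc_subset_Icc ?_ (hA N hN).2.2)
    exact neg_le_neg (hA N hN).2.2
  · have e1 := (hμ N hN).2.2.1 k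
    rw [h2 D N hN (A N) (hA N hN).2.1 k] at e1
    exact_mod_cast e1
  · have hsub : ∀ a : ℕ, Bdd D (sub N a) := fun a => hN.sub a
    choose φ hφ using fun a : ℕ => hres (sub N a) (hsub a) z hz
    have hst : ∀ a : ℕ, st (μ (sub N a)) z = (φ a : List ℕ → ℂ) [] := by
      intro a
      rw [(hμ (sub N a) (hsub a)).2.2.2 z hz (φ a) (hφ a), inner_dl]
    obtain ⟨ψ, hψ1, hψ2⟩ := h3 D N hN (A N) (hA N hN).2.1 (fun a => A (sub N a))
      (fun a _ => (hA _ (hsub a)).2.1) z hz φ (fun a _ => hφ a)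
    obtain ⟨c, hc⟩ : ∃ c : ℂ, c = z - ∑ a ∈ range (N []), (φ a : List ℕ → ℂ) [] := ⟨_, rfl⟩
    have hc' : z - ∑ a ∈ range (N []), st (μ (sub N a)) z = c := by
      rw [hc]; congr 1; exact sum_congr rfl fun a _ => hst a
    rw [← hc] at hψ2
    rw [hc']
    have hne : c ≠ 0 := by
      intro h0
      rw [h0, zero_smul] at hψ2
      obtain ⟨ψ0, hψ0⟩ := hres N hN z hz
      have e1 := (hμ N hN).2.2.2 z hz ψ0 hψ0
      have e2 := (hμ N hN).2.2.2 z hz (ψ0 + ψ) (by
        rw [smul_add, map_add, add_sub_add_comm, hψ0, hψ2, add_zero])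
      rw [e1, inner_add_right, inner_dl ψ, hψ1] at e2
      have h6 : (1 : ℂ) = 0 := by
        have h7 := sub_eq_zero.2 e2
        simpa using h7
      exact one_ne_zero h6
    have e3 := (hμ N hN).2.2.2 z hz (c⁻¹ • ψ) (by
      rw [map_smul, smul_comm z c⁻¹ ψ, ← smul_sub, hψ2, smul_smul, inv_mul_cancel₀ hne, one_smul])
    rw [e3, inner_smul_right, inner_dl, hψ1, mul_one, inv_mul_cancel₀ hne]

lemma cut_eq {D : ℕ} {N : Tr} (hN : Bdd D N) : cut D N = N := by
  funext w; exact min_eq_left (hN w)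

lemma bdd_cut (D : ℕ) (N : Tr) : Bdd D (cut D N) := fun w => min_le_right _ _

/-- the types at a point -/
noncomputable def typed (hB1 : TaskB1) (hB2 : TaskB2) {D : ℕ} {μ : Tr → Measure ℝ}
    (hμ : IsSpec D μ) (l : ℝ) : Typed D l where
  m N := (μ (cut D N)).real {l}
  fi N := sg (μ (cut D N)) l ≠ ⊤
  r N := rr (μ (cut D N)) l
  s N := (sg (μ (cut D N)) l).toReal
  hm N hN := by
    have := hμ.prob (cut D N) (bdd_cut D N)
    exact ⟨measureReal_nonneg, measureReal_le_one⟩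
  hfi N hN hf := by
    have h1 := hμ.prob (cut D N) (bdd_cut D N)
    obtain ⟨h2, h3, -⟩ := (hB1 (μ (cut D N)) h1 l).2.1 hf
    exact ⟨by simp [Measure.real, h2], h3⟩
  h1 N hN hex := by
    have hc := hB2 hB1 l (μ N) (N []) (fun a => μ (sub N a)) (hμ.prob N hN)
      (fun a _ => hμ.prob _ (hN.sub a)) (hμ.recu N hN)
    have e1 : ∀ a, cut D (sub N a) = sub N a := fun a => cut_eq (hN.sub a)
    simp only [cut_eq hN, e1] at hex ⊢
    refine hc.1 ?_
    obtain ⟨a, ha, h3⟩ := hex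
    refine ⟨a, ha, fun h4 => ?_⟩
    simp [Measure.real, h4] at h3
  h2 N hN hf hr := by
    have hc := hB2 hB1 l (μ N) (N []) (fun a => μ (sub N a)) (hμ.prob N hN)
      (fun a _ => hμ.prob _ (hN.sub a)) (hμ.recu N hN)
    have e1 : ∀ a, cut D (sub N a) = sub N a := fun a => cut_eq (hN.sub a)
    simp only [cut_eq hN, e1] at hf hr ⊢
    exact hc.2.1 hf hr
  h3 N hN hf hr := by
    have hc := hB2 hB1 l (μ N) (N []) (fun a => μ (sub N a)) (hμ.prob N hN)
      (fun a _ => hμ.prob _ (hN.sub a)) (hμ.recu N hN)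
    have e1 : ∀ a, cut D (sub N a) = sub N a := fun a => cut_eq (hN.sub a)
    simp only [cut_eq hN, e1] at hf hr ⊢
    exact hc.2.2.1 hf hr
  h4 N hN hm hf := by
    have hc := hB2 hB1 l (μ N) (N []) (fun a => μ (sub N a)) (hμ.prob N hN)
      (fun a _ => hμ.prob _ (hN.sub a)) (hμ.recu N hN)
    have e1 : ∀ a, cut D (sub N a) = sub N a := fun a => cut_eq (hN.sub a)
    simp only [cut_eq hN, e1] at hm hf ⊢
    have h5 : ∀ a < N [], μ (sub N a) {l} = 0 := by
      intro a ha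
      have := hμ.prob _ (hN.sub a)
      exact (measureReal_eq_zero_iff).1 (hm a ha)
    obtain ⟨h6, h7⟩ := hc.2.2.2 h5 (by
      obtain ⟨a, ha, h8⟩ := hf
      exact ⟨a, ha, not_not.1 h8⟩)
    exact ⟨by simp [Measure.real, h6], not_not.2 h7⟩

lemma typed_meas (hB1 : TaskB1) (hB2 : TaskB2) {D : ℕ} {μ : Tr → Measure ℝ}
    (hμ : IsSpec D μ) (hmeas : Measurable (fun N : Tr => μ (cut D N))) (l : ℝ) :
    (typed hB1 hB2 hμ l).Meas := by
  have hsg : Measurable (fun N : Tr => sg (μ (cut D N)) l) := by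
    unfold sg
    exact (Measure.measurable_lintegral (by fun_prop)).comp hmeas
  refine ⟨?_, ?_, ?_, ?_⟩
  · exact ((Measure.measurable_coe (measurableSet_singleton l)).comp hmeas).ennreal_toReal
  · exact (hsg (measurableSet_singleton ⊤)).compl
  · obtain ⟨κ, hκ⟩ : ∃ κ : Kernel Tr ℝ, κ = ⟨fun N => μ (cut D N), hmeas⟩ := ⟨_, rfl⟩
    have hM : IsMarkovKernel κ := ⟨fun N => by
      rw [hκ]; exact hμ.prob _ (bdd_cut D N)⟩
    have h1 : StronglyMeasurable (fun x : Tr × ℝ => (l - x.2)⁻¹) :=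
      ((measurable_const.sub measurable_snd).inv).stronglyMeasurable
    have h2 := (h1.integral_kernel_prod_right' (κ := κ)).measurable
    rw [hκ] at h2
    exact h2
  · exact hsg.ennreal_toReal

/-- the set of atoms is finite -/
theorem main (h1 : TaskA1) (h2 : TaskA2) (h3 : TaskA3) (h4 : TaskA4) (hB1 : TaskB1)
    (hB2 : TaskB2) (hM : TaskM) (hC : TaskC) (hF : TaskF)
    (P : PMF ℕ) (hP : P.support.Finite) (hP0 : P 0 = 0) (hP1 : P 1 = 0)
    (Ω : Type) [MeasureSpace Ω] [IsProbabilityMeasure (volume : Measure Ω)]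
    (N : List ℕ → Ω → ℕ) (hNm : ∀ w, Measurable (N w))
    (hind : iIndepFun N (volume : Measure Ω))
    (hroot : ∀ k : ℕ, (volume : Measure Ω) {ω | N [] ω = k} = P k)
    (hrest : ∀ w : List ℕ, w ≠ [] → ∀ k : ℕ,
      (volume : Measure Ω) {ω | N w ω = k}
        = ((k : ENNReal) + 1) * P (k + 1) / ∑' j : ℕ, (j : ENNReal) * P j)
    (ν : Measure ℝ) (hν : IsProbabilityMeasure ν) (hR : ∃ R : ℝ, ν (Set.Icc (-R) R)ᶜ = 0)
    (hmom : ∀ k : ℕ, ∫ x, x ^ k ∂ν =
        ∫ ω, ((walks (fun w => N w ω) k).ncard : ℝ) ∂(volume : Measure Ω)) :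
    {x : ℝ | ν {x} ≠ 0}.Finite := by
  -- bound on the degrees
  obtain ⟨D, hD⟩ : ∃ D : ℕ, ∀ k, D < k → P k = 0 := by
    obtain ⟨D, hD⟩ := hP.bddAbove
    refine ⟨D, fun k hk => ?_⟩
    by_contra h
    exact absurd (hD ((P.mem_support_iff k).2 h)) (not_le.2 hk)
  obtain ⟨S, hS⟩ : ∃ S : ENNReal, S = ∑' j : ℕ, (j : ENNReal) * P j := ⟨_, rfl⟩
  have hStop : S ≠ ⊤ := by
    rw [hS, tsum_eq_sum (s := range (D + 1))]
    · refine ENNReal.sum_ne_top.2 fun k _ => ENNReal.mul_ne_top (ENNReal.natCast_ne_top k)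
        (P.apply_ne_top k)
    · intro k hk
      rw [hD k (by simpa using hk), mul_zero]
  have hS0 : S ≠ 0 := by
    intro h0
    rw [hS, ENNReal.tsum_eq_zero] at h0
    have h5 : ∀ k, P k = 0 := by
      intro k
      rcases Nat.eq_zero_or_pos k with rfl | hk
      · exact hP0
      · have := h0 k
        rcases mul_eq_zero.1 this with h6 | h6
        · exfalso
          have : k = 0 := by exact_mod_cast h6
          omega
        · exact h6
    have h7 := P.tsum_coe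
    simp [h5] at h7
  -- the laws
  obtain ⟨p, hp⟩ : ∃ p : Measure ℕ, p = (volume : Measure Ω).map (N []) := ⟨_, rfl⟩
  obtain ⟨q, hq⟩ : ∃ q : Measure ℕ, q = (volume : Measure Ω).map (N [0]) := ⟨_, rfl⟩
  have hpP : IsProbabilityMeasure p := by
    rw [hp]; exact Measure.isProbabilityMeasure_map (hNm _).aemeasurable
  have hqP : IsProbabilityMeasure q := by
    rw [hq]; exact Measure.isProbabilityMeasure_map (hNm _).aemeasurable
  have hmapk : ∀ w k, ((volume : Measure Ω).map (N w)) {k} = (volume : Measure Ω) {ω | N w ω = k} := by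
    intro w k
    rw [Measure.map_apply (hNm w) (measurableSet_singleton k)]
    rfl
  have hpk : ∀ k, p {k} = P k := by intro k; rw [hp, hmapk, hroot]
  have hqk : ∀ k : ℕ, q {k} = ((k : ENNReal) + 1) * P (k + 1) / S := by
    intro k; rw [hq, hmapk, hrest [0] (by simp), hS]
  have hL : Laws D p q S.toReal := by
    refine ⟨fun k hk => by rw [hpk, hD k hk], by rw [hpk, hP0], by rw [hpk, hP1],
      ENNReal.toReal_pos hS0 hStop, fun k => ?_⟩
    have e1 : S * q {k} = ((k : ENNReal) + 1) * p {k + 1} := by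
      rw [hqk, hpk, ENNReal.mul_div_cancel hS0 hStop]
    have e2 := congrArg ENNReal.toReal e1
    rw [ENNReal.toReal_mul, ENNReal.toReal_mul] at e2
    simp only [Measure.real]
    rw [e2]
    congr 1
  -- the law of the tree
  have hTm : Measurable (fun (ω : Ω) (w : List ℕ) => N w ω) := measurable_pi_iff.2 hNm
  have hlaw : (volume : Measure Ω).map (fun (ω : Ω) (w : List ℕ) => N w ω) = GW p q := by
    rw [(iIndepFun_iff_map_fun_eq_infinitePi_map hNm).1 hind]
    unfold GW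
    congr 1
    funext w
    unfold law
    split_ifs with hw
    · rw [hw, hp]
    · rw [hq]
      refine Measure.ext_of_singleton fun k => ?_
      rw [hmapk, hmapk, hrest w hw, hrest [0] (by simp)]
  -- spectral measures
  obtain ⟨μ, hμ⟩ := exists_spec h1 h2 h3 h4 D
  have hmeas := hM D μ hμ
  have hwm : ∀ k, AEStronglyMeasurable (fun N' : Tr => ((walks N' k).ncard : ℝ)) (GW p q) := by
    intro k
    obtain ⟨κ, hκ⟩ : ∃ κ : Kernel Tr ℝ, κ = ⟨fun N => μ (cut D N), hmeas⟩ := ⟨_, rfl⟩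
    have hMk : IsMarkovKernel κ := ⟨fun N => by
      rw [hκ]; exact hμ.prob _ (bdd_cut D N)⟩
    have e1 : StronglyMeasurable (fun x : Tr × ℝ => x.2 ^ k) :=
      (measurable_snd.pow_const k).stronglyMeasurable
    have e2 := (e1.integral_kernel_prod_right' (κ := κ)).aestronglyMeasurable (μ := GW p q)
    refine e2.congr ?_
    filter_upwards [hL.bdd] with N' hN'
    rw [hκ]
    change ∫ x : ℝ, x ^ k ∂(μ (cut D N')) = _
    rw [hμ.mom _ (bdd_cut D N'), cut_eq hN']
  have hmom' : ∀ k : ℕ, ∫ x : ℝ, x ^ k ∂ν = ∫ N', ((walks N' k).ncard : ℝ) ∂(GW p q) := by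
    intro k
    rw [hmom k, ← hlaw, integral_map hTm.aemeasurable]
    rw [hlaw]; exact hwm k
  have hatom := hC D μ hμ hmeas (GW p q) inferInstance hL.bdd ν hν hR hmom'
  obtain ⟨E, hE, hE2⟩ := atoms_zero hF hL
  refine hE.subset fun l hl => ?_
  by_contra hlE
  have e1 := hE2 l hlE (typed hB1 hB2 hμ l) (typed_meas hB1 hB2 hμ hmeas l)
  apply hl
  rw [hatom l]
  have e2 : ∫ N', (μ (cut D N')).real {l} ∂(GW p q) = 0 := e1
  have hfin : ∀ᵐ N' ∂(GW p q), μ (cut D N') {l} < ⊤ := Filter.Eventually.of_forall fun N' => by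
    have := hμ.prob _ (bdd_cut D N')
    exact measure_lt_top _ _
  have hme : AEMeasurable (fun N' : Tr => μ (cut D N') {l}) (GW p q) :=
    ((Measure.measurable_coe (measurableSet_singleton l)).comp hmeas).aemeasurable
  have e3 := integral_toReal hme hfin
  have e4 : (∫⁻ N', μ (cut D N') {l} ∂(GW p q)).toReal = 0 := by rw [← e3]; exact e2
  rcases (ENNReal.toReal_eq_zero_iff _).1 e4 with e5 | e5
  · exact e5
  · exfalso
    have e6 : ∫⁻ N', μ (cut D N') {l} ∂(GW p q) ≤ ∫⁻ _N' : Tr, 1 ∂(GW p q) := by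
      refine lintegral_mono fun N' => ?_
      have := hμ.prob _ (bdd_cut D N')
      exact prob_le_one
    rw [e5, lintegral_const, measure_univ, one_mul] at e6
    exact absurd e6 (by simp)

end Pool.Agent.W909.UG
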